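import Pool.Agent.R304.SG.Bal

/-!
# Project SN (helper196): the signs of `Z'`, weighted balance

The sum of the jumps of the sign of Hardy's function against a weight `f` is at most `|f(T₂)| + ∫ |f'|`.
-/

set_option autoImplicit false

namespace Pool.Agent.U196.SN

open Filter Topology MeasureTheory Complex Set
open Pool.Agent.R304.SG

noncomputable section

open Classical in
/-- the jumps, with bounded partial sums -/
theorem jumps {T₁ T₂ : ℝ} (h0 : 0 ≤ T₁) (h12 : T₁ < T₂) : ∃ J : ℝ → ℤ,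
    (∀ u ∈ (RZ_finite T₁ T₂ h0).toFinset, |J u| ≤ 1 ∧
      (deriv Z u ≠ 0 → J u = sg (deriv Z u).re ∧ (deriv Z u).re ≠ 0) ∧
      (deriv Z u = 0 → analyticOrderNatAt riemannZeta (1 / 2 + I * u) < 3 → J u = 0)) ∧
    ∀ x : ℝ, |∑ u ∈ (RZ_finite T₁ T₂ h0).toFinset.filter (fun u => u ≤ x), J u| ≤ 1 := by
  have hfin := RZ_finite T₁ T₂ h0
  set F := hfin.toFinset with hF
  have hmem : ∀ u, u ∈ F ↔ T₁ < u ∧ u ≤ T₂ ∧ Z u = 0 := fun u => by
    rw [hF, Set.Finite.mem_toFinset]; rfl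
  have hJ : ∀ u : ℝ, ∃ J : ℤ, u ∈ F → IsJump (fun t => (Z t).re) u J ∧ |J| ≤ 1 ∧
    (deriv Z u ≠ 0 → J = sg (deriv Z u).re ∧ (deriv Z u).re ≠ 0) ∧
    (deriv Z u = 0 → analyticOrderNatAt riemannZeta (1 / 2 + I * u) < 3 → J = 0) := by
    intro u
    by_cases hu : u ∈ F
    · have hu' := (hmem u).mp hu
      obtain ⟨J, hJ⟩ := exists_jump (by linarith [hu'.1]) hu'.2.2
      exact ⟨J, fun _ => hJ⟩
    · exact ⟨0, fun h => absurd h hu⟩
  choose J hJ using hJ
  refine ⟨J, fun u hu => (hJ u hu).2, ?_⟩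
  have hZc : Continuous fun t => (Z t).re := Complex.continuous_re.comp Z_cont
  have hz0 : ∀ u, (Z u).re = 0 → Z u = 0 := fun u h => by rw [← Z_re, h]; simp
  -- the case of a point of the interval
  have key : ∀ x : ℝ, T₁ < x → x ≤ T₂ → |∑ u ∈ F.filter (fun u => u ≤ x), J u| ≤ 1 := by
    intro x hx1 hx2
    set Fx := F.filter (fun u => u ≤ x) with hFx
    have hmemx : ∀ u, u ∈ Fx ↔ T₁ < u ∧ u ≤ x ∧ Z u = 0 := fun u => by
      rw [hFx, Finset.mem_filter, hmem]
      constructor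
      · rintro ⟨⟨a, -, b⟩, c⟩; exact ⟨a, c, b⟩
      · rintro ⟨a, b, c⟩; exact ⟨⟨a, b.trans hx2, c⟩, b⟩
    obtain ⟨a, ha1, ha2, ha3⟩ := exists_right Fx hx1
    obtain ⟨b, hb1, hb2, hb3⟩ := exists_right (RZ_finite x (x + 1) (by linarith)).toFinset
      (show x < x + 1 by linarith)
    have hsum := jump_sum hZc J Fx.card Fx rfl a b (by linarith)
      (fun h => by
        have : a ∈ Fx := (hmemx a).mpr ⟨ha1, ha2.le, hz0 a h⟩
        exact lt_irrefl _ (ha3 a this ha1))
      (fun h => by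
        have : b ∈ (RZ_finite x (x + 1) (by linarith)).toFinset := by
          rw [Set.Finite.mem_toFinset]
          exact ⟨hb1, hb2.le, hz0 b h⟩
        exact lt_irrefl _ (hb3 b this hb1))
      (fun u hau hub hu0 => by
        rcases le_or_gt u x with h | h
        · exact (hmemx u).mpr ⟨by linarith, h, hz0 u hu0⟩
        · have : u ∈ (RZ_finite x (x + 1) (by linarith)).toFinset := by
            rw [Set.Finite.mem_toFinset]
            exact ⟨h, by linarith, hz0 u hu0⟩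
          exact absurd (hb3 u this h) (by linarith))
      (fun u hu => ⟨ha3 u hu ((hmemx u).mp hu).1, by linarith [((hmemx u).mp hu).2.1]⟩)
      (fun u hu => (hJ u (Finset.mem_of_mem_filter u hu)).1)
    unfold sg at hsum
    rw [abs_le]
    split_ifs at hsum <;> constructor <;> omega
  intro x
  rcases le_or_gt x T₁ with hx | hx
  · rw [Finset.filter_false_of_mem]
    · simp
    · intro u hu h
      have := ((hmem u).mp hu).1
      linarith
  · rcases le_or_gt x T₂ with hx2 | hx2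
    · exact key x hx hx2
    · have : F.filter (fun u => u ≤ x) = F.filter (fun u => u ≤ T₂) := by
        ext u
        simp only [Finset.mem_filter]
        constructor
        · rintro ⟨a, -⟩; exact ⟨a, ((hmem u).mp a).2.1⟩
        · rintro ⟨a, b⟩; exact ⟨a, by linarith⟩
      rw [this]
      exact key T₂ h12 le_rfl

open Classical in
/-- summation by parts -/
theorem parts {F : Finset ℝ} {J : ℝ → ℤ} {T₁ T₂ : ℝ} (hF : ∀ u ∈ F, T₁ < u ∧ u ≤ T₂)
    (hJ : ∀ x : ℝ, |∑ u ∈ F.filter (fun u => u ≤ x), J u| ≤ 1) (h12 : T₁ ≤ T₂) {f f' : ℝ → ℝ}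
    (hd : ∀ t, HasDerivAt f (f' t) t) (hc : Continuous f') :
    |∑ u ∈ F, (J u : ℝ) * f u| ≤ |f T₂| + ∫ t in T₁..T₂, |f' t| := by
  have h1 : ∀ u ∈ F, (J u : ℝ) * f u = J u * f T₂ - ∫ x in Set.Icc T₁ T₂, (J u : ℝ) * (Set.Icc u T₂).indicator f' x := by
    intro u hu
    obtain ⟨a1, a2⟩ := hF u hu
    have e1 : ∫ x in u..T₂, f' x = f T₂ - f u :=
      intervalIntegral.integral_eq_sub_of_hasDerivAt (fun t _ => hd t) (hc.intervalIntegrable _ _)
    rw [integral_const_mul, setIntegral_indicator measurableSet_Icc]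
    have e2 : Set.Icc T₁ T₂ ∩ Set.Icc u T₂ = Set.Icc u T₂ := by
      apply Set.inter_eq_self_of_subset_right
      exact Set.Icc_subset_Icc a1.le le_rfl
    rw [e2, integral_Icc_eq_integral_Ioc, ← intervalIntegral.integral_of_le a2, e1]
    ring
  rw [Finset.sum_congr rfl h1, Finset.sum_sub_distrib, ← Finset.sum_mul]
  have hint : ∀ u ∈ F, IntegrableOn (fun x => (J u : ℝ) * (Set.Icc u T₂).indicator f' x) (Set.Icc T₁ T₂) := by
    intro u hu
    refine Integrable.const_mul ?_ _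
    exact (hc.continuousOn.integrableOn_compact isCompact_Icc).indicator measurableSet_Icc
  rw [← integral_finset_sum _ hint]
  have hsum : ∀ x ∈ Set.Icc T₁ T₂, ∑ u ∈ F, (J u : ℝ) * (Set.Icc u T₂).indicator f' x =
      ((∑ u ∈ F.filter (fun u => u ≤ x), J u : ℤ) : ℝ) * f' x := by
    intro x hx
    push_cast
    rw [Finset.sum_mul, Finset.sum_filter]
    refine Finset.sum_congr rfl fun u hu => ?_
    by_cases h : u ≤ x
    · rw [if_pos h, Set.indicator_of_mem (show x ∈ Set.Icc u T₂ from ⟨h, hx.2⟩)]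
    · rw [if_neg h, Set.indicator_of_notMem (fun h' => h h'.1), mul_zero]
  rw [setIntegral_congr_fun measurableSet_Icc hsum]
  have hT2 : |(∑ u ∈ F, (J u : ℝ))| ≤ 1 := by
    have := hJ T₂
    rw [Finset.filter_true_of_mem (fun u hu => (hF u hu).2)] at this
    have h3 : |((∑ u ∈ F, J u : ℤ) : ℝ)| ≤ 1 := by exact_mod_cast this
    push_cast at h3
    exact h3
  have h4 : |(∑ u ∈ F, (J u : ℝ)) * f T₂| ≤ |f T₂| := by
    rw [abs_mul]
    calc _ ≤ 1 * |f T₂| := mul_le_mul_of_nonneg_right hT2 (abs_nonneg _)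
      _ = _ := one_mul _
  have h5 : |∫ x in Set.Icc T₁ T₂, ((∑ u ∈ F.filter (fun u => u ≤ x), J u : ℤ) : ℝ) * f' x| ≤ ∫ t in T₁..T₂, |f' t| := by
    rw [intervalIntegral.integral_of_le h12, ← integral_Icc_eq_integral_Ioc, ← Real.norm_eq_abs]
    refine norm_integral_le_of_norm_le ?_ (Eventually.of_forall fun x => ?_)
    · exact hc.abs.continuousOn.integrableOn_compact isCompact_Icc
    · rw [Real.norm_eq_abs, abs_mul]
      have h6 : |((∑ u ∈ F.filter (fun u => u ≤ x), J u : ℤ) : ℝ)| ≤ 1 := by exact_mod_cast hJ x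
      calc _ ≤ 1 * |f' x| := mul_le_mul_of_nonneg_right h6 (abs_nonneg _)
        _ = _ := one_mul _
  exact (abs_sub _ _).trans (add_le_add h4 h5)

end

end Pool.Agent.U196.SN
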