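import Pool.Agent.U196.SN.Iso

/-!
# Project SN (helper196): extreme values at the zeros of one sign
-/

set_option autoImplicit false

namespace Pool.Agent.U196.SN

open Filter Topology MeasureTheory Complex
open Pool.Agent.Q97.UM Pool.Agent.Q98.UM
open Pool.Agent.U196.UM (cheb ep_prc growth2 dp_sub_smul)

/-- **Sharpness**: there are Dirichlet polynomials whose mass sits at zeros with large (small) derivative. -/
theorem ext_sub {ε a₀ : ℝ} (hε : 0 < ε) {d θ₁ : ℝ} (hθ₁ : 0 < θ₁) (S : ℝ → Finset ℂ) (hsub : ∀ T, S T ⊆ ZI d T)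
    (hS : ∀ᶠ T : ℝ in atTop, ∀ N : ℕ, (N : ℝ) ≤ T ^ θ₁ → ∀ b : ℕ → ℂ,
      a₀ * (Real.log T / (2 * Real.pi)) * (T * N2 N b) ≤ ∑ s ∈ S T, ‖dp N b s.im‖ ^ 2) (hd : 0 < d)
    {θ : ℝ} (hθ : 0 < θ) :
    ∃ c : ℝ, 0 < c ∧ ∀ᶠ T : ℝ in atTop, ∀ σ : ℝ, σ = 1 ∨ σ = -1 → ∃ (N : ℕ) (b : ℕ → ℂ), (N : ℝ) ≤ T ^ θ ∧ 0 < N2 N b ∧
      (a₀ - ε) * (Real.log T / (2 * Real.pi)) * (T * N2 N b) ≤
        ∑ s ∈ (S T).filter (fun s => c * Pool.Agent.U196.UM.sq T ≤ σ * Real.log ‖deriv riemannZeta s‖), ‖dp N b s.im‖ ^ 2 := by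
  obtain ⟨θ₂, hθ₂, hθ₂', hS2⟩ := b_SAMP 1 one_pos
  obtain ⟨θ₃, δ₀, hθ₃, hδ₀, hTHD⟩ := b_THD 2
  set δ : ℝ := min δ₀ (θ₂ / 2) with hδd
  have hδ : 0 < δ := by positivity
  have hδθ : δ ≤ θ₂ / 2 := min_le_right _ _
  have hδ1 : δ ≤ 1 := by linarith
  obtain ⟨C₁, hC₁, hT1⟩ := hTHD δ d hδ (min_le_left _ _) hd
  obtain ⟨C₃, hC₃, hEP⟩ := ep_prc
  set θ' : ℝ := min (min θ θ₁) (min θ₃ (θ₂ / 2)) with hθ'
  have hθ'0 : 0 < θ' := by positivity
  have hθ'1 : θ' ≤ 1 := (min_le_right _ _).trans ((min_le_right _ _).trans (by linarith))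
  obtain ⟨c, C, hc, hC, hR⟩ := Pool.Agent.Q241.UM.t_RES θ' hθ'0 hθ'1
  have hpi := Real.pi_pos
  set D : ℝ := 4 * (C₁ + 2 + 2 * (1 + C₃) ^ 2 + 2 * C) with hD
  have hD0 : 0 < D := by positivity
  set c₀ : ℝ := 6 * Real.sqrt (ε * c ^ 2 / (8 * Real.pi * D)) with hc₀
  have hc₀0 : 0 < c₀ := by positivity
  have hc₀2 : c₀ ^ 2 / 36 = ε * c ^ 2 / (8 * Real.pi * D) := by
    rw [hc₀, mul_pow, Real.sq_sqrt (by positivity)]
    ring
  refine ⟨c / 2, by positivity, ?_⟩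
  filter_upwards [hS, hS2, hT1, hR, hEP δ hδ hδ1, growth δ c₀ 1 hδ hc₀0, eventually_ge_atTop 16,
    growth2 0] with T h1 h2 h3 h4 h5 h6 hT16 h7 σ hσ
  obtain ⟨N, r, a, hN, hr, hr1, ha, hX⟩ := h4 σ hσ
  obtain ⟨hL40, -, hLL1, hL4, hgr, -⟩ := h6
  have hr3 := h7.2.2
  have hsq : Pool.Agent.U196.UM.sq T = Real.sqrt (Real.log T / Real.log (Real.log T)) := rfl
  rw [← hsq] at ha hgr
  set R := Pool.Agent.U196.UM.sq T with hR
  set q := Real.log T / Real.log (Real.log T) with hq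
  have hR2 : R ^ 2 = q := Real.sq_sqrt (by linarith)
  have hR0 : 0 ≤ R := Real.sqrt_nonneg _
  have hT0 : 0 < T := by linarith
  have hL0 : 0 < Real.log T := Real.log_pos (by linarith)
  set LL := Real.log (Real.log T) with hLL
  have hle : ∀ {a c : ℝ}, a ≤ c → T ^ a ≤ T ^ c := fun h => Real.rpow_le_rpow_of_exponent_le (by linarith) h
  have hNθ : (N : ℝ) ≤ T ^ θ := hN.trans (hle ((min_le_left _ _).trans (min_le_left _ _)))
  have hN1 : (N : ℝ) ≤ T ^ θ₁ := hN.trans (hle ((min_le_left _ _).trans (min_le_right _ _)))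
  have hN3 : (N : ℝ) ≤ T ^ θ₃ := hN.trans (hle ((min_le_right _ _).trans (min_le_left _ _)))
  have hN2' : (N : ℝ) ≤ T ^ (θ₂ / 2) := hN.trans (hle ((min_le_right _ _).trans (min_le_right _ _)))
  have hN22 : (N : ℝ) ≤ T ^ θ₂ := hN2'.trans (hle (by linarith))
  have hN20 : 0 < N2 N r := by linarith
  set X := ⌊T ^ δ⌋₊ with hXd
  have hXlow : Real.log T ^ 4 ≤ X := by
    have : T ^ δ < X + 1 := Nat.lt_floor_add_one _
    linarith
  have hXup : (X : ℝ) ≤ T ^ δ := Nat.floor_le (by positivity)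
  have hXT : (X : ℝ) ≤ T := hXup.trans (by
    calc T ^ δ ≤ T ^ (1 : ℝ) := hle hδ1
      _ = T := Real.rpow_one T)
  have hX1 : 1 ≤ X := by
    have : (1:ℝ) ≤ X := by
      have : (1:ℝ) ≤ Real.log T ^ 4 := one_le_pow₀ (by linarith)
      linarith
    exact_mod_cast this
  have hX5 := hX X hXlow hXT
  have hXN : ((X * N : ℕ) : ℝ) ≤ T ^ θ₂ := by
    push_cast
    calc (X : ℝ) * N ≤ T ^ δ * T ^ (θ₂ / 2) := mul_le_mul hXup hN2' (by positivity) (by positivity)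
      _ = T ^ (δ + θ₂ / 2) := by rw [← Real.rpow_add hT0]
      _ ≤ _ := hle (by linarith)
  have sub_le : ∀ g : ℂ → ℝ, (∀ s, 0 ≤ g s) → ∑ s ∈ S T, g s ≤ ∑ s ∈ ZI d T, g s := fun g hg =>
    Finset.sum_le_sum_of_subset_of_nonneg (hsub T) fun s _ _ => hg s
  have hall : ∀ (M : ℕ) (c : ℕ → ℂ), (M : ℝ) ≤ T ^ θ₂ → ∑ s ∈ S T, ‖dp M c s.im‖ ^ 2 ≤
      2 * (Real.log T * T) * N2 M c := by
    intro M c hM
    have k1 := (h2 M hM c).2.2
    have k2 := (sub_le (fun s => ‖dp M c s.im‖ ^ 2) (fun s => by positivity)).trans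
      (Pool.Agent.U196.UM.ZI_le d T (fun s => ‖dp M c s.im‖ ^ 2) (fun s => by positivity))
    have k3 := (abs_le.1 k1).2
    have k4 : Real.log T / (2 * Real.pi) ≤ Real.log T := div_le_self hL0.le (by have := Real.pi_gt_three; linarith)
    have k5 : 0 ≤ T * N2 M c := mul_nonneg hT0.le (Pool.Agent.Q98.UM.N2_nonneg _ _)
    have k6 := mul_le_mul_of_nonneg_right k4 k5
    refine k2.trans ?_
    calc ∑ s ∈ H370.Zf riemannZeta T (2 * T), (mz s : ℝ) * ‖dp M c s.im‖ ^ 2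
        ≤ Real.log T / (2 * Real.pi) * (T * N2 M c) + 1 * Real.log T * (T * N2 M c) := by linarith
      _ ≤ Real.log T * (T * N2 M c) + 1 * Real.log T * (T * N2 M c) := by linarith
      _ = _ := by ring
  have i1 := (sub_le (fun s => |Real.log ‖deriv riemannZeta s‖ - Real.log (Real.log T) - EP X s.im| ^ 2 * ‖dp N r s.im‖ ^ 2)
    (fun s => by positivity)).trans (h3 N hN3 r).1
  have i2 := hall N r hN22
  have i3 : ∑ s ∈ S T, ‖dp X (prc X) s.im - σ * a‖ ^ 2 * ‖dp N r s.im‖ ^ 2 ≤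
      2 * C * LL * (Real.log T * (T * N2 N r)) := by
    have j1 := hall (X * N) (fun n => cv (prc X) r n - σ * a * r n) hXN
    have j2 : ∀ s : ℂ, ‖dp (X * N) (fun n => cv (prc X) r n - σ * a * r n) s.im‖ ^ 2 =
        ‖dp X (prc X) s.im - σ * a‖ ^ 2 * ‖dp N r s.im‖ ^ 2 := by
      intro s
      have := dp_sub_smul hX1 hr ((σ : ℂ) * a) s.im
      rw [this, norm_mul, mul_pow]
    simp_rw [j2] at j1
    refine j1.trans ?_
    calc 2 * (Real.log T * T) * N2 (X * N) (fun n => cv (prc X) r n - σ * a * r n)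
        ≤ 2 * (Real.log T * T) * (C * LL * N2 N r) := mul_le_mul_of_nonneg_left hX5 (by positivity)
      _ = _ := by ring
  refine ⟨N, r, hNθ, hN20, ?_⟩
  have hch := cheb (S := S T) (f := fun s => ‖dp N r s.im‖ ^ 2)
    (g := fun s => 4 * (|Real.log ‖deriv riemannZeta s‖ - LL - EP X s.im| ^ 2 * ‖dp N r s.im‖ ^ 2 +
      (LL ^ 2 + (1 + C₃) ^ 2 * LL ^ 2) * ‖dp N r s.im‖ ^ 2 + ‖dp X (prc X) s.im - σ * a‖ ^ 2 * ‖dp N r s.im‖ ^ 2))
    (P := fun s => c / 2 * R ≤ σ * Real.log ‖deriv riemannZeta s‖)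
    (κ := c ^ 2 / 4 * q) (B := D * LL ^ 2 * (Real.log T * (T * N2 N r))) (by positivity) (fun s _ => by positivity)
    (fun s _ => by positivity) ?_ (h1 N hN1 r) ?_
  · refine le_trans ?_ hch
    have : D * LL ^ 2 * (Real.log T * (T * N2 N r)) / (c ^ 2 / 4 * q) ≤ ε / (2 * Real.pi) * (Real.log T * (T * N2 N r)) := by
      have e0 : LL ^ 2 ≤ c₀ ^ 2 / 36 * q := by
        have e1 : LL ≤ c₀ / 6 * R := by linarith
        calc LL ^ 2 ≤ (c₀ / 6 * R) ^ 2 := pow_le_pow_left₀ (by linarith) e1 2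
          _ = _ := by rw [mul_pow, hR2]; ring
      rw [hc₀2] at e0
      have e2 : D * LL ^ 2 ≤ ε / (2 * Real.pi) * (c ^ 2 / 4 * q) := by
        calc D * LL ^ 2 ≤ D * (ε * c ^ 2 / (8 * Real.pi * D) * q) := mul_le_mul_of_nonneg_left e0 hD0.le
          _ = _ := by field_simp; ring
      rw [div_le_iff₀ (by positivity)]
      calc D * LL ^ 2 * (Real.log T * (T * N2 N r)) ≤ ε / (2 * Real.pi) * (c ^ 2 / 4 * q) * (Real.log T * (T * N2 N r)) :=
            mul_le_mul_of_nonneg_right e2 (by positivity)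
        _ = _ := by ring
    have e2 : (a₀ - ε) * (Real.log T / (2 * Real.pi)) * (T * N2 N r) =
        a₀ * (Real.log T / (2 * Real.pi)) * (T * N2 N r) -
          ε / (2 * Real.pi) * (Real.log T * (T * N2 N r)) := by ring
    rw [e2]
    linarith
  · intro s hs hbad
    push Not at hbad
    have hσ2 : σ * σ = 1 := by rcases hσ with h | h <;> rw [h] <;> norm_num
    have b1 := h5 s.im
    set x := Real.log ‖deriv riemannZeta s‖ - LL - EP X s.im with hx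
    set y := EP X s.im - (dp X (prc X) s.im).re with hy
    set z := (dp X (prc X) s.im).re - σ * a with hz
    have b3 : |z| ≤ ‖dp X (prc X) s.im - σ * a‖ := by
      have : z = (dp X (prc X) s.im - σ * a).re := by
        rw [hz]; simp
      rw [this]
      exact abs_re_le_norm _
    have b4 : z ^ 2 ≤ ‖dp X (prc X) s.im - σ * a‖ ^ 2 := by
      rw [← sq_abs z]; exact pow_le_pow_left₀ (abs_nonneg _) b3 2
    have b5 : y ^ 2 ≤ (1 + C₃) ^ 2 * LL ^ 2 := by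
      rw [← mul_pow, ← sq_abs y]
      refine pow_le_pow_left₀ (abs_nonneg _) (b1.trans ?_) 2
      nlinarith
    have e : Real.log ‖deriv riemannZeta s‖ - σ * a = x + LL + y + z := by simp only [hx, hy, hz]; ring
    have b6 : (x + LL + y + z) ^ 2 ≤ 4 * (x ^ 2 + LL ^ 2 + y ^ 2 + z ^ 2) := by
      nlinarith [sq_nonneg (x - LL), sq_nonneg (x - y), sq_nonneg (x - z), sq_nonneg (LL - y), sq_nonneg (LL - z),
        sq_nonneg (y - z)]
    have b7 : c ^ 2 / 4 * q ≤ (Real.log ‖deriv riemannZeta s‖ - σ * a) ^ 2 := by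
      have c1 : σ * (Real.log ‖deriv riemannZeta s‖ - σ * a) = σ * Real.log ‖deriv riemannZeta s‖ - a := by
        rw [mul_sub, ← mul_assoc, hσ2, one_mul]
      have c2 : (Real.log ‖deriv riemannZeta s‖ - σ * a) ^ 2 = (a - σ * Real.log ‖deriv riemannZeta s‖) ^ 2 := by
        calc (Real.log ‖deriv riemannZeta s‖ - σ * a) ^ 2
            = (σ * σ) * (Real.log ‖deriv riemannZeta s‖ - σ * a) ^ 2 := by rw [hσ2, one_mul]
          _ = (σ * (Real.log ‖deriv riemannZeta s‖ - σ * a)) ^ 2 := by ring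
          _ = _ := by rw [c1]; ring
      rw [c2]
      calc c ^ 2 / 4 * q = (c / 2 * R) ^ 2 := by rw [mul_pow, hR2]; ring
        _ ≤ _ := pow_le_pow_left₀ (by positivity) (by linarith) 2
    rw [e] at b7
    have b8 : c ^ 2 / 4 * q ≤ 4 * (|x| ^ 2 + (LL ^ 2 + (1 + C₃) ^ 2 * LL ^ 2) + ‖dp X (prc X) s.im - σ * a‖ ^ 2) := by
      rw [sq_abs]
      linarith
    calc c ^ 2 / 4 * q * ‖dp N r s.im‖ ^ 2
        ≤ 4 * (|x| ^ 2 + (LL ^ 2 + (1 + C₃) ^ 2 * LL ^ 2) + ‖dp X (prc X) s.im - σ * a‖ ^ 2) * ‖dp N r s.im‖ ^ 2 :=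
          mul_le_mul_of_nonneg_right b8 (by positivity)
      _ = _ := by ring
  · rw [← Finset.mul_sum, Finset.sum_add_distrib, Finset.sum_add_distrib, ← Finset.mul_sum]
    set W := Real.log T * (T * N2 N r) with hW
    have hW0 : 0 ≤ W := by positivity
    have i1' : C₁ * Real.log T * (T * N2 N r) ≤ C₁ * LL ^ 2 * W := by
      have a1 : (1:ℝ) ≤ LL ^ 2 := one_le_pow₀ hLL1
      have a2 : 0 ≤ C₁ * W := by positivity
      calc C₁ * Real.log T * (T * N2 N r) = C₁ * W := by rw [hW]; ring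
        _ ≤ C₁ * W * LL ^ 2 := le_mul_of_one_le_right a2 a1
        _ = _ := by ring
    have i2' : (LL ^ 2 + (1 + C₃) ^ 2 * LL ^ 2) * ∑ s ∈ S T, ‖dp N r s.im‖ ^ 2 ≤ (1 + (1 + C₃) ^ 2) * LL ^ 2 * (2 * W) := by
      calc (LL ^ 2 + (1 + C₃) ^ 2 * LL ^ 2) * ∑ s ∈ S T, ‖dp N r s.im‖ ^ 2
          ≤ (LL ^ 2 + (1 + C₃) ^ 2 * LL ^ 2) * (2 * (Real.log T * T) * N2 N r) :=
            mul_le_mul_of_nonneg_left i2 (by positivity)
        _ = _ := by rw [hW]; ring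
    have i3' : 2 * C * LL * W ≤ 2 * C * LL ^ 2 * W := by
      have a1 : LL ≤ LL ^ 2 := by nlinarith
      have a2 : 0 ≤ 2 * C * W := by positivity
      nlinarith
    calc _ ≤ 4 * (C₁ * LL ^ 2 * W + (1 + (1 + C₃) ^ 2) * LL ^ 2 * (2 * W) + 2 * C * LL ^ 2 * W) := by linarith
      _ = _ := by rw [hD]; ring


end Pool.Agent.U196.SN
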