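import Pool.Agent.U196.SN.ExtS
import Pool.Agent.U196.SN.MomS
import Pool.Agent.Q97.UM.Jm

/-!
# Project SN (helper196): final inequalities
-/

set_option autoImplicit false

namespace Pool.Agent.U196.SN

open Filter Topology MeasureTheory Complex
open Pool.Agent.Q97.UM

noncomputable section

open Classical in
/-- no sign has more than half -/
theorem share_up {T : ℝ} (hT : 1 ≤ T) {J : ℂ → ℝ}
    (hJ : ∀ s ∈ CZ T, |J s| ≤ 1 ∧ (0 < dZ s → J s = 1) ∧ (dZ s < 0 → J s = -1) ∧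
      (dZ s = 0 → 2 ≤ mz s ∧ (mz s < 3 → J s = 0))) (f : ℝ → ℝ) (hf : ∀ t, 0 ≤ f t) :
    2 * ∑ s ∈ (CZ T).filter (fun s => 0 < dZ s), f s.im ≤
      ∑ s ∈ H370.Zf riemannZeta T (2 * T), (mz s : ℝ) * f s.im + |∑ s ∈ CZ T, J s * f s.im| ∧
    2 * ∑ s ∈ (CZ T).filter (fun s => dZ s < 0), f s.im ≤
      ∑ s ∈ H370.Zf riemannZeta T (2 * T), (mz s : ℝ) * f s.im + |∑ s ∈ CZ T, J s * f s.im| := by
  have hm : ∀ s ∈ CZ T, (1 : ℝ) ≤ mz s := by
    intro s hs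
    have hs' := (mem_CZ hT).1 hs
    have h3 : 1 ≤ mz s := H370.Loc.mult_pos' H370.good_zeta (by linarith [hs'.2.1]) hs'.2.2.2
    exact_mod_cast h3
  have h0 : ∑ s ∈ CZ T, (mz s : ℝ) * f s.im ≤ ∑ s ∈ H370.Zf riemannZeta T (2 * T), (mz s : ℝ) * f s.im :=
    Finset.sum_le_sum_of_subset_of_nonneg (Finset.filter_subset _ _) fun s _ _ => mul_nonneg (Nat.cast_nonneg _) (hf s.im)
  have hJ0 : ∀ s ∈ CZ T, dZ s = 0 → |J s| ≤ (mz s : ℝ) := by
    intro s hs h0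
    obtain ⟨j1, -, -, -⟩ := hJ s hs
    linarith [hm s hs]
  constructor
  · have h1 : 2 * ∑ s ∈ (CZ T).filter (fun s => 0 < dZ s), f s.im ≤
        ∑ s ∈ CZ T, (mz s : ℝ) * f s.im + ∑ s ∈ CZ T, J s * f s.im := by
      rw [Finset.mul_sum, Finset.sum_filter, ← Finset.sum_add_distrib]
      refine Finset.sum_le_sum fun s hs => ?_
      obtain ⟨j1, j2, j3, -⟩ := hJ s hs
      have hf0 := hf s.im
      have hm1 := hm s hs
      rcases lt_trichotomy (dZ s) 0 with h | h | h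
      · rw [if_neg (by linarith), j3 h]
        nlinarith
      · rw [if_neg (by linarith)]
        have := (abs_le.1 (hJ0 s hs h)).1
        nlinarith
      · rw [if_pos h, j2 h]
        nlinarith
    have h2 := le_abs_self (∑ s ∈ CZ T, J s * f s.im)
    linarith
  · have h1 : 2 * ∑ s ∈ (CZ T).filter (fun s => dZ s < 0), f s.im ≤
        ∑ s ∈ CZ T, (mz s : ℝ) * f s.im - ∑ s ∈ CZ T, J s * f s.im := by
      rw [Finset.mul_sum, Finset.sum_filter, ← Finset.sum_sub_distrib]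
      refine Finset.sum_le_sum fun s hs => ?_
      obtain ⟨j1, j2, j3, -⟩ := hJ s hs
      have hf0 := hf s.im
      have hm1 := hm s hs
      rcases lt_trichotomy (dZ s) 0 with h | h | h
      · rw [if_pos h, j3 h]
        nlinarith
      · rw [if_neg (by linarith)]
        have := (abs_le.1 (hJ0 s hs h)).2
        nlinarith
      · rw [if_neg (by linarith), j2 h]
        nlinarith
    have h2 := neg_abs_le (∑ s ∈ CZ T, J s * f s.im)
    linarith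

open Classical in
/-- the critical zeros at which `σ Z' > 0` -/
def CS (σ T : ℝ) : Finset ℂ := (CZ T).filter (fun s => 0 < σ * dZ s)

lemma CS_one (T : ℝ) : CS 1 T = (CZ T).filter (fun s => 0 < dZ s) := by
  unfold CS
  simp only [one_mul]

lemma CS_neg (T : ℝ) : CS (-1) T = (CZ T).filter (fun s => dZ s < 0) := by
  unfold CS
  simp only [neg_one_mul, Left.neg_pos_iff]

/-- the sum over all zeros -/
def tot (T : ℝ) (N : ℕ) (b : ℕ → ℂ) : ℝ := ∑ s ∈ H370.Zf riemannZeta T (2 * T), (mz s : ℝ) * ‖dp N b s.im‖ ^ 2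

theorem tot_nonneg (T : ℝ) (N : ℕ) (b : ℕ → ℂ) : 0 ≤ tot T N b := Finset.sum_nonneg fun s _ => by positivity

/-- comparison of the total weight with the mean square -/
theorem tot_cmp {η : ℝ} (hη : 0 < η) (hη1 : η ≤ 1 / 2) : ∃ θ : ℝ, 0 < θ ∧ θ ≤ 1 / 40 ∧ ∀ᶠ T : ℝ in atTop, ∀ N : ℕ, (N : ℝ) ≤ T ^ θ →
    ∀ b : ℕ → ℂ, tot T N b ≤ (1 + η) * (Real.log T / (2 * Real.pi) * (T * N2 N b)) ∧
      Real.log T * (T * N2 N b) ≤ 16 * tot T N b := by
  have hpi := Real.pi_pos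
  have hpi4 := Real.pi_lt_four
  obtain ⟨θ, hθ, hθ', hS⟩ := b_SAMP (η / 8) (by positivity)
  refine ⟨θ, hθ, hθ', ?_⟩
  filter_upwards [hS, eventually_ge_atTop 16] with T h1 hT N hN b
  obtain ⟨-, -, a3⟩ := h1 N hN b
  have hL : 0 < Real.log T := Real.log_pos (by linarith)
  have hn : 0 ≤ N2 N b := Pool.Agent.Q98.UM.N2_nonneg _ _
  change |tot T N b - _| ≤ _ at a3
  set X := Real.log T * (T * N2 N b) with hX
  have hX0 : 0 ≤ X := by positivity
  have e1 : Real.log T / (2 * Real.pi) * (T * N2 N b) = X / (2 * Real.pi) := by rw [hX]; ring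
  have e3 : η / 8 * Real.log T * (T * N2 N b) = η / 8 * X := by rw [hX]; ring
  rw [e1, e3] at a3
  rw [e1]
  set W := X / (2 * Real.pi) with hW
  have hW0 : 0 ≤ W := by positivity
  have hXW : X ≤ 8 * W := by
    rw [hW, mul_div_assoc', le_div_iff₀ (by positivity)]
    nlinarith
  obtain ⟨a4, a5⟩ := abs_le.1 a3
  have h3 : η / 8 * X ≤ η * W := by nlinarith
  constructor
  · linarith
  · nlinarith

/-- **both signs, two-sided** -/
theorem signs {ε : ℝ} (hε : 0 < ε) (hε4 : ε ≤ 1 / 4) : ∃ θ : ℝ, 0 < θ ∧ ∀ᶠ T : ℝ in atTop, ∀ N : ℕ, (N : ℝ) ≤ T ^ θ → ∀ b : ℕ → ℂ,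
    ∀ σ : ℝ, σ = 1 ∨ σ = -1 → (2 - H370.cMTinv - ε) / 2 * tot T N b ≤ ∑ s ∈ CS σ T, ‖dp N b s.im‖ ^ 2 ∧
      ∑ s ∈ CS σ T, ‖dp N b s.im‖ ^ 2 ≤ (1 / 2 + ε) * tot T N b := by
  set η : ℝ := ε / 2 with hη
  have hη0 : 0 < η := by positivity
  obtain ⟨θ₁, hθ₁, hθ₁', h1⟩ := both (ε := ε / 2) (by positivity)
  obtain ⟨θ₂, hθ₂, hθ₂', h2⟩ := tot_cmp hη0 (by linarith)
  set θ : ℝ := min (min θ₁ θ₂) (ε / 100) with hθ
  have hθ0 : 0 < θ := by positivity
  have hθ40 : θ ≤ 1 / 40 := ((min_le_left _ _).trans (min_le_left _ _)).trans hθ₁'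
  refine ⟨θ, hθ0, ?_⟩
  filter_upwards [h1, h2, tv hθ0 (by linarith), eventually_ge_atTop 16] with T h1 h2 h3 hT N hN b σ hσ
  have hT1 : 1 ≤ T := by linarith
  obtain ⟨a1, a2⟩ := h1 N (hN.trans (Real.rpow_le_rpow_of_exponent_le hT1 ((min_le_left _ _).trans (min_le_left _ _)))) b
  obtain ⟨a3, a4⟩ := h2 N (hN.trans (Real.rpow_le_rpow_of_exponent_le hT1 ((min_le_left _ _).trans (min_le_right _ _)))) b
  have a5 := h3 N hN b
  obtain ⟨J, hJ, hJs⟩ := jumpsC hT1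
  have a6 := (hJs N b).trans a5
  obtain ⟨b1, b2⟩ := share_up hT1 hJ (fun t => ‖dp N b t‖ ^ 2) (fun t => by positivity)
  have ht := tot_nonneg T N b
  have hV : 10 * θ * (Real.log T * (T * N2 N b)) ≤ 2 * ε * tot T N b := by
    have c1 : θ ≤ ε / 100 := min_le_right _ _
    have c2 : 10 * θ * (Real.log T * (T * N2 N b)) ≤ 10 * θ * (16 * tot T N b) := mul_le_mul_of_nonneg_left a4 (by positivity)
    have c3 : θ * tot T N b ≤ ε / 100 * tot T N b := mul_le_mul_of_nonneg_right c1 ht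
    nlinarith
  set W := Real.log T / (2 * Real.pi) * (T * N2 N b) with hW
  have hW0 : 0 ≤ W := by
    by_contra hc
    push Not at hc
    nlinarith
  have hlow : (2 - H370.cMTinv - ε) / 2 * tot T N b ≤ (2 - H370.cMTinv - ε / 2) / 2 * W := by
    have hc1 := H370.cMTinv_gt_one
    have hc2 := H370.cMTinv_lt
    have c1 : (2 - H370.cMTinv - ε) * (1 + η) ≤ 2 - H370.cMTinv - ε / 2 := by
      rw [hη]
      nlinarith
    calc (2 - H370.cMTinv - ε) / 2 * tot T N b ≤ (2 - H370.cMTinv - ε) / 2 * ((1 + η) * W) :=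
          mul_le_mul_of_nonneg_left a3 (by linarith)
      _ = ((2 - H370.cMTinv - ε) * (1 + η)) / 2 * W := by ring
      _ ≤ _ := mul_le_mul_of_nonneg_right (by linarith) hW0
  have e : tot T N b = ∑ s ∈ H370.Zf riemannZeta T (2 * T), (mz s : ℝ) * ‖dp N b s.im‖ ^ 2 := rfl
  rw [← e] at b1 b2
  rcases hσ with hσ | hσ
  · rw [hσ, CS_one]
    refine ⟨hlow.trans a1, ?_⟩
    linarith
  · rw [hσ, CS_neg]
    refine ⟨hlow.trans a2, ?_⟩
    linarith

/-- **isolated zeros of each sign, relative to the total weight** -/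
theorem iso_signs {ε : ℝ} (hε : 0 < ε) (hε4 : ε ≤ 1 / 4) : ∃ d θ : ℝ, 0 < d ∧ d ≤ 1 ∧ 0 < θ ∧ ∀ᶠ T : ℝ in atTop,
    ∀ N : ℕ, (N : ℝ) ≤ T ^ θ → ∀ b : ℕ → ℂ, ∀ σ : ℝ, σ = 1 ∨ σ = -1 →
    (2 - H370.cMTinv - 1 / 2 - ε) * tot T N b ≤ ∑ s ∈ ZS σ d T, ‖dp N b s.im‖ ^ 2 := by
  obtain ⟨d, θ₀, hd, hd1, hθ₀, -, hS⟩ := b_SAMPI (ε / 4) (by positivity)
  obtain ⟨θ₁, hθ₁, hθ₁', h1⟩ := iso_both (by positivity : 0 < ε / 4) hθ₀ hS
  obtain ⟨θ₂, hθ₂, hθ₂', h2⟩ := tot_cmp (η := ε / 2) (by positivity) (by linarith)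
  refine ⟨d, min θ₁ θ₂, hd, hd1, by positivity, ?_⟩
  filter_upwards [h1, h2, eventually_ge_atTop 16] with T h1 h2 hT N hN b σ hσ
  have hT1 : 1 ≤ T := by linarith
  have a1 := h1 N (hN.trans (Real.rpow_le_rpow_of_exponent_le hT1 (min_le_left _ _))) b σ hσ
  obtain ⟨a3, a4⟩ := h2 N (hN.trans (Real.rpow_le_rpow_of_exponent_le hT1 (min_le_right _ _))) b
  have ht := tot_nonneg T N b
  have hp : 0 ≤ ∑ s ∈ ZS σ d T, ‖dp N b s.im‖ ^ 2 := Finset.sum_nonneg fun s _ => by positivity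
  set W := Real.log T / (2 * Real.pi) * (T * N2 N b) with hW
  have hW0 : 0 ≤ W := by
    by_contra hc
    push Not at hc
    nlinarith
  rcases le_or_gt (2 - H370.cMTinv - 1 / 2 - ε) 0 with h | h
  · have := mul_nonpos_of_nonpos_of_nonneg h ht
    linarith
  · refine le_trans ?_ a1
    have hc1 := H370.cMTinv_gt_one
    have c1 : (2 - H370.cMTinv - 1 / 2 - ε) * (1 + ε / 2) ≤ (3 - 2 * H370.cMTinv) / 2 - 2 * (ε / 4) := by nlinarith
    calc (2 - H370.cMTinv - 1 / 2 - ε) * tot T N b ≤ (2 - H370.cMTinv - 1 / 2 - ε) * ((1 + ε / 2) * W) :=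
          mul_le_mul_of_nonneg_left a3 h.le
      _ = ((2 - H370.cMTinv - 1 / 2 - ε) * (1 + ε / 2)) * W := by ring
      _ ≤ _ := mul_le_mul_of_nonneg_right c1 hW0

/-- one `d` for the moments and the extreme values: isolated zeros of each sign carry a positive share -/
theorem iso_base : ∃ d θ : ℝ, 0 < d ∧ d ≤ 1 ∧ 0 < θ ∧ ∀ᶠ T : ℝ in atTop, ∀ N : ℕ, (N : ℝ) ≤ T ^ θ → ∀ b : ℕ → ℂ,
    ∀ σ : ℝ, σ = 1 ∨ σ = -1 → 1 / 6 * (Real.log T / (2 * Real.pi)) * (T * N2 N b) ≤ ∑ s ∈ ZS σ d T, ‖dp N b s.im‖ ^ 2 ∧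
      1 / 40 * (Real.log T * (T * N2 N b)) ≤ ∑ s ∈ ZS σ d T, ‖dp N b s.im‖ ^ 2 := by
  obtain ⟨d, θ₀, hd, hd1, hθ₀, -, hS⟩ := b_SAMPI (1 / 1000) (by positivity)
  obtain ⟨θ₁, hθ₁, hθ₁', h1⟩ := iso_both (by positivity : (0 : ℝ) < 1 / 1000) hθ₀ hS
  refine ⟨d, θ₁, hd, hd1, by positivity, ?_⟩
  filter_upwards [h1, eventually_ge_atTop 16] with T h1 hT N hN b σ hσ
  have a1 := h1 N hN b σ hσ
  have hL : 0 < Real.log T := Real.log_pos (by linarith)
  have hn : 0 ≤ N2 N b := Pool.Agent.Q98.UM.N2_nonneg _ _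
  have hnum := H370.Expl.cMTinv_num
  have hX0 : 0 ≤ Real.log T * (T * N2 N b) := by positivity
  set W := Real.log T / (2 * Real.pi) * (T * N2 N b) with hW
  have hW0 : 0 ≤ W := by positivity
  have e1 : 1 / 6 * (Real.log T / (2 * Real.pi)) * (T * N2 N b) = 1 / 6 * W := by rw [hW]; ring
  have h2 : 1 / 6 * W ≤ ((3 - 2 * H370.cMTinv) / 2 - 2 * (1 / 1000)) * W :=
    mul_le_mul_of_nonneg_right (by linarith) hW0
  have h3 : 1 / 40 * (Real.log T * (T * N2 N b)) ≤ 1 / 6 * W := by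
    have hpi := Real.pi_pos
    have hpi2 := Real.pi_lt_d2
    have e2 : 1 / 6 * W = 1 / (12 * Real.pi) * (Real.log T * (T * N2 N b)) := by rw [hW]; field_simp; ring
    rw [e2]
    refine mul_le_mul_of_nonneg_right ?_ hX0
    apply one_div_le_one_div_of_le
    · positivity
    · linarith
  rw [e1]
  exact ⟨h2.trans a1, h3.trans (h2.trans a1)⟩

open Classical in
/-- **moments and extreme values over the isolated zeros of each sign** -/
theorem moments : ∃ d : ℝ, 0 < d ∧ d ≤ 1 ∧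
    (∀ A : ℝ, 1 ≤ A → ∃ c : ℝ, 0 < c ∧ ∀ᶠ T : ℝ in atTop, ∀ lam : ℝ, |lam| ≤ A → ∀ σ : ℝ, σ = 1 ∨ σ = -1 →
      c * T * Real.log T ^ ((lam + 1) ^ 2) ≤ ∑ s ∈ ZS σ d T, ‖deriv riemannZeta s‖ ^ (2 * lam)) ∧
    (∀ ε : ℝ, 0 < ε → ∃ c : ℝ, 0 < c ∧ ∀ᶠ T : ℝ in atTop, ∀ σ : ℝ, σ = 1 ∨ σ = -1 → ∀ τ : ℝ, τ = 1 ∨ τ = -1 →
      T ^ (1 - ε) ≤ (((ZS σ d T).filter (fun s => c * Pool.Agent.U196.UM.sq T ≤ τ * Real.log ‖deriv riemannZeta s‖)).card : ℝ)) := by
  obtain ⟨d, θ₁, hd, hd1, hθ₁, hbase⟩ := iso_base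
  refine ⟨d, hd, hd1, ?_, ?_⟩
  · intro A hA
    have key : ∀ σ : ℝ, σ = 1 ∨ σ = -1 → ∃ c : ℝ, 0 < c ∧ ∀ᶠ T : ℝ in atTop, ∀ lam : ℝ, |lam| ≤ A →
        c * T * Real.log T ^ ((lam + 1) ^ 2) ≤ ∑ s ∈ ZS σ d T, ‖deriv riemannZeta s‖ ^ (2 * lam) := by
      intro σ hσ
      obtain ⟨δ, θ, c, hδ, _, hθ, hc, h1⟩ := lbd_sub hd hθ₁ (fun T => ZS σ d T) (fun T => ZS_sub σ d T)
        (hbase.mono fun T h N hN b => (h N hN b σ hσ).2) A hA
      refine ⟨c * c, by positivity, ?_⟩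
      filter_upwards [h1, eventually_ge_atTop 3] with T h2 hT lam hlam
      obtain ⟨M, e, hM, _, hlow, h3⟩ := h2 lam hlam
      have hT0 : 0 < T := by linarith
      have hL0 : 0 < Real.log T := Real.log_pos (by linarith)
      have h4 := h3 1 (by rw [Nat.cast_one]; exact Real.one_le_rpow (by linarith) hθ.le) d1 d1_supp
      rw [N2_d1] at h4
      have h5 : ∑ s ∈ ZS σ d T, ‖deriv riemannZeta s‖ ^ (2 * lam) * ‖dp 1 d1 s.im‖ ^ 2 =
          ∑ s ∈ ZS σ d T, ‖deriv riemannZeta s‖ ^ (2 * lam) := by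
        apply Finset.sum_congr rfl
        intro s _
        rw [dp_d1, norm_one, one_pow, mul_one]
      rw [h5] at h4
      refine le_trans ?_ h4
      calc c * c * T * Real.log T ^ ((lam + 1) ^ 2) = c * T * Real.log T ^ (1 + 2 * lam) * (c * Real.log T ^ (lam ^ 2)) := by
            have : Real.log T ^ ((lam + 1) ^ 2) = Real.log T ^ (1 + 2 * lam) * Real.log T ^ (lam ^ 2) := by
              rw [← Real.rpow_add hL0]
              congr 1
              ring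
            rw [this]
            ring
        _ ≤ _ := mul_le_mul_of_nonneg_left hlow (by positivity)
    obtain ⟨c₁, hc₁, h₁⟩ := key 1 (Or.inl rfl)
    obtain ⟨c₂, hc₂, h₂⟩ := key (-1) (Or.inr rfl)
    refine ⟨min c₁ c₂, by positivity, ?_⟩
    filter_upwards [h₁, h₂, eventually_ge_atTop 3] with T h₁ h₂ hT lam hlam σ hσ
    have hL0 : 0 < Real.log T := Real.log_pos (by linarith)
    have hP : 0 ≤ T * Real.log T ^ ((lam + 1) ^ 2) := by positivity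
    rcases hσ with hσ | hσ
    · rw [hσ]
      refine le_trans ?_ (h₁ lam hlam)
      have := mul_le_mul_of_nonneg_right (min_le_left c₁ c₂) hP
      linarith
    · rw [hσ]
      refine le_trans ?_ (h₂ lam hlam)
      have := mul_le_mul_of_nonneg_right (min_le_right c₁ c₂) hP
      linarith
  · intro ε hε
    have key : ∀ σ : ℝ, σ = 1 ∨ σ = -1 → ∃ c : ℝ, 0 < c ∧ ∀ᶠ T : ℝ in atTop, ∀ τ : ℝ, τ = 1 ∨ τ = -1 →
      T ^ (1 - ε) ≤ (((ZS σ d T).filter (fun s => c * Pool.Agent.U196.UM.sq T ≤ τ * Real.log ‖deriv riemannZeta s‖)).card : ℝ) := by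
      intro σ hσ
      obtain ⟨c, hc, h1⟩ := ext_sub (ε := 1 / 12) (a₀ := 1 / 6) (by norm_num) hθ₁ (fun T => ZS σ d T) (fun T => ZS_sub σ d T)
        (hbase.mono fun T h N hN b => (h N hN b σ hσ).1) hd hε
      refine ⟨c, hc, ?_⟩
      filter_upwards [h1, Real.tendsto_log_atTop.eventually_ge_atTop (24 * Real.pi), eventually_ge_atTop 3] with T h2 hL hT τ hτ
      obtain ⟨N, b, hN, hN2, h3⟩ := h2 τ hτ
      have hT0 : 0 < T := by linarith
      set S := (ZS σ d T).filter (fun s => c * Pool.Agent.U196.UM.sq T ≤ τ * Real.log ‖deriv riemannZeta s‖) with hS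
      have h4 : ∑ s ∈ S, ‖dp N b s.im‖ ^ 2 ≤ (S.card : ℝ) * (N * N2 N b) := by
        calc ∑ s ∈ S, ‖dp N b s.im‖ ^ 2 ≤ ∑ s ∈ S, (N * N2 N b) :=
              Finset.sum_le_sum fun s _ => (Pool.Agent.Q84.UM.t_DPM.2.2 N b s.im).1
          _ = _ := by rw [Finset.sum_const, nsmul_eq_mul]
      have h5 : 1 ≤ (1 / 6 - 1 / 12) * (Real.log T / (2 * Real.pi)) := by
        have hpi := Real.pi_pos
        rw [mul_div_assoc', le_div_iff₀ (by positivity)]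
        linarith
      have h6 : T * N2 N b ≤ (S.card : ℝ) * (N * N2 N b) := by
        have : 1 * (T * N2 N b) ≤ (1 / 6 - 1 / 12) * (Real.log T / (2 * Real.pi)) * (T * N2 N b) :=
          mul_le_mul_of_nonneg_right h5 (by positivity)
        linarith
      have h7 : T ≤ (S.card : ℝ) * N := by
        have : T * N2 N b ≤ ((S.card : ℝ) * N) * N2 N b := by linarith
        exact le_of_mul_le_mul_right this hN2
      have h8 : T ≤ (S.card : ℝ) * T ^ ε := h7.trans (mul_le_mul_of_nonneg_left hN (Nat.cast_nonneg _))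
      rw [Real.rpow_sub hT0, Real.rpow_one, div_le_iff₀ (Real.rpow_pos_of_pos hT0 _)]
      exact h8
    obtain ⟨c₁, hc₁, h₁⟩ := key 1 (Or.inl rfl)
    obtain ⟨c₂, hc₂, h₂⟩ := key (-1) (Or.inr rfl)
    refine ⟨min c₁ c₂, by positivity, ?_⟩
    filter_upwards [h₁, h₂] with T h₁ h₂ σ hσ τ hτ
    have hq : 0 ≤ Pool.Agent.U196.UM.sq T := Real.sqrt_nonneg _
    rcases hσ with hσ | hσ
    · rw [hσ]
      refine (h₁ τ hτ).trans ?_
      exact_mod_cast Finset.card_le_card fun s hs => by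
        rw [Finset.mem_filter] at hs ⊢
        exact ⟨hs.1, (mul_le_mul_of_nonneg_right (min_le_left c₁ c₂) hq).trans hs.2⟩
    · rw [hσ]
      refine (h₂ τ hτ).trans ?_
      exact_mod_cast Finset.card_le_card fun s hs => by
        rw [Finset.mem_filter] at hs ⊢
        exact ⟨hs.1, (mul_le_mul_of_nonneg_right (min_le_right c₁ c₂) hq).trans hs.2⟩

end

end Pool.Agent.U196.SN
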