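import Pool.Agent.U196.SN.Share

/-!
# Project SN (helper196): isolated simple zeros of each sign
-/

set_option autoImplicit false

namespace Pool.Agent.U196.SN

open Filter Topology MeasureTheory Complex
open Pool.Agent.Q97.UM

noncomputable section

open Classical in
/-- the isolated simple critical zeros at which `σ Z' > 0` -/
def ZS (σ d T : ℝ) : Finset ℂ := (ZI d T).filter (fun s => 0 < σ * dZ s)

lemma ZS_sub (σ d T : ℝ) : ZS σ d T ⊆ ZI d T := Finset.filter_subset _ _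

lemma ZI_sub {d T : ℝ} : ZI d T ⊆ CZ T := by
  intro s hs
  unfold ZI at hs
  unfold CZ
  rw [Finset.mem_filter] at hs ⊢
  exact ⟨hs.1, hs.2.1⟩

lemma ZI_one {d T : ℝ} {s : ℂ} (hs : s ∈ ZI d T) : mz s = 1 := by
  unfold ZI at hs
  rw [Finset.mem_filter] at hs
  exact hs.2.2.1

open Classical in
/-- the pointwise inequality for the isolated zeros -/
theorem iso_alg {d T : ℝ} (hT : 1 ≤ T) {J : ℂ → ℝ}
    (hJ : ∀ s ∈ CZ T, |J s| ≤ 1 ∧ (0 < dZ s → J s = 1) ∧ (dZ s < 0 → J s = -1) ∧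
      (dZ s = 0 → 2 ≤ mz s ∧ (mz s < 3 → J s = 0))) (f : ℝ → ℝ) (hf : ∀ t, 0 ≤ f t) {σ : ℝ} (hσ : σ = 1 ∨ σ = -1) :
    2 * ∑ s ∈ ZI d T, f s.im - ∑ s ∈ H370.Zf riemannZeta T (2 * T), (mz s : ℝ) * f s.im - |∑ s ∈ CZ T, J s * f s.im| ≤
      2 * ∑ s ∈ ZS σ d T, f s.im := by
  have hm : ∀ s ∈ H370.Zf riemannZeta T (2 * T), (1 : ℝ) ≤ mz s := by
    intro s hs
    have hs' := (H370.mem_Zf H370.good_zeta hT).1 hs
    have h3 : 1 ≤ mz s := H370.Loc.mult_pos' H370.good_zeta (by linarith [hs'.2.2.1]) hs'.2.2.2.2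
    exact_mod_cast h3
  have h1 : ∑ s ∈ CZ T, f s.im ≤ ∑ s ∈ H370.Zf riemannZeta T (2 * T), (mz s : ℝ) * f s.im := by
    refine (Finset.sum_le_sum_of_subset_of_nonneg (s := CZ T) (t := H370.Zf riemannZeta T (2 * T)) (f := fun s => f s.im)
      (Finset.filter_subset _ _) fun s _ _ => hf s.im).trans (Finset.sum_le_sum fun s hs => ?_)
    nlinarith [hm s hs, hf s.im]
  have e1 : ∑ s ∈ ZI d T, f s.im = ∑ s ∈ CZ T, if s ∈ ZI d T then f s.im else 0 := by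
    rw [← Finset.sum_filter]
    refine Finset.sum_congr ?_ fun s _ => rfl
    ext s
    rw [Finset.mem_filter]
    exact ⟨fun h => ⟨ZI_sub h, h⟩, fun h => h.2⟩
  have e2 : ∑ s ∈ ZS σ d T, f s.im = ∑ s ∈ CZ T, if s ∈ ZI d T ∧ 0 < σ * dZ s then f s.im else 0 := by
    rw [← Finset.sum_filter]
    refine Finset.sum_congr ?_ fun s _ => rfl
    ext s
    unfold ZS
    rw [Finset.mem_filter, Finset.mem_filter]
    exact ⟨fun h => ⟨ZI_sub h.1, h⟩, fun h => h.2⟩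
  have h2 : 2 * ∑ s ∈ ZI d T, f s.im - ∑ s ∈ CZ T, f s.im + σ * ∑ s ∈ CZ T, J s * f s.im ≤ 2 * ∑ s ∈ ZS σ d T, f s.im := by
    rw [e1, e2, Finset.mul_sum, Finset.mul_sum, Finset.mul_sum, ← Finset.sum_sub_distrib, ← Finset.sum_add_distrib]
    refine Finset.sum_le_sum fun s hs => ?_
    obtain ⟨j1, j2, j3, j4⟩ := hJ s hs
    have hf0 := hf s.im
    by_cases h : s ∈ ZI d T
    · have hne : dZ s ≠ 0 := by
        intro h0
        have := (j4 h0).1
        rw [ZI_one h] at this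
        omega
      rcases lt_or_gt_of_ne hne with h0 | h0
      · rcases hσ with hσ | hσ
        · rw [if_pos h, if_neg (fun hc => by rw [hσ] at hc; linarith [hc.2]), j3 h0, hσ]
          linarith
        · rw [if_pos h, if_pos ⟨h, by rw [hσ]; linarith⟩, j3 h0, hσ]
          linarith
      · rcases hσ with hσ | hσ
        · rw [if_pos h, if_pos ⟨h, by rw [hσ]; linarith⟩, j2 h0, hσ]
          linarith
        · rw [if_pos h, if_neg (fun hc => by rw [hσ] at hc; linarith [hc.2]), j2 h0, hσ]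
          linarith
    · rw [if_neg h, if_neg (fun hc => h hc.1)]
      have h5 : σ * J s ≤ 1 := by
        rcases hσ with hσ | hσ
        · rw [hσ, one_mul]; exact (abs_le.1 j1).2
        · rw [hσ]; linarith [(abs_le.1 j1).1]
      nlinarith
  have h3 : -|∑ s ∈ CZ T, J s * f s.im| ≤ σ * ∑ s ∈ CZ T, J s * f s.im := by
    rcases hσ with hσ | hσ
    · rw [hσ, one_mul]; exact neg_abs_le _
    · rw [hσ]; linarith [le_abs_self (∑ s ∈ CZ T, J s * f s.im)]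
  linarith

/-- **isolated zeros of each sign** -/
theorem iso_both {ε d θ₁ : ℝ} (hε : 0 < ε) (hθ₁ : 0 < θ₁)
    (hS : ∀ᶠ T : ℝ in atTop, ∀ N : ℕ, (N : ℝ) ≤ T ^ θ₁ → ∀ b : ℕ → ℂ,
      (2 - H370.cMTinv - ε) * (Real.log T / (2 * Real.pi)) * (T * N2 N b) ≤ ∑ s ∈ ZI d T, ‖dp N b s.im‖ ^ 2) :
    ∃ θ : ℝ, 0 < θ ∧ θ ≤ 1 / 40 ∧ ∀ᶠ T : ℝ in atTop, ∀ N : ℕ, (N : ℝ) ≤ T ^ θ → ∀ b : ℕ → ℂ, ∀ σ : ℝ, σ = 1 ∨ σ = -1 →
    ((3 - 2 * H370.cMTinv) / 2 - 2 * ε) * (Real.log T / (2 * Real.pi) * (T * N2 N b)) ≤ ∑ s ∈ ZS σ d T, ‖dp N b s.im‖ ^ 2 := by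
  have hpi := Real.pi_pos
  have hpi4 := Real.pi_lt_four
  set ε' : ℝ := ε / 40 with hε'
  have hε'0 : 0 < ε' := by positivity
  obtain ⟨θ₂, hθ₂, hθ₂', hS2⟩ := b_SAMP ε' hε'0
  set θ : ℝ := min (min θ₁ θ₂) (ε / 400) with hθ
  have hθ0 : 0 < θ := by positivity
  have hθ40 : θ ≤ 1 / 40 := ((min_le_left _ _).trans (min_le_right _ _)).trans hθ₂'
  refine ⟨θ, hθ0, hθ40, ?_⟩
  filter_upwards [hS, hS2, tv hθ0 (by linarith), eventually_ge_atTop 16] with T h0 h1 h2 hT N hN b σ hσ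
  have hT1 : 1 ≤ T := by linarith
  have hL : 0 < Real.log T := Real.log_pos (by linarith)
  have a1 := h0 N (hN.trans (Real.rpow_le_rpow_of_exponent_le hT1 ((min_le_left _ _).trans (min_le_left _ _)))) b
  obtain ⟨-, -, a3⟩ := h1 N (hN.trans (Real.rpow_le_rpow_of_exponent_le hT1 ((min_le_left _ _).trans (min_le_right _ _)))) b
  have a4 := h2 N hN b
  obtain ⟨J, hJ, hJs⟩ := jumpsC hT1
  have a5 := (hJs N b).trans a4
  have hn : 0 ≤ N2 N b := Pool.Agent.Q98.UM.N2_nonneg _ _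
  set X := Real.log T * (T * N2 N b) with hX
  have hX0 : 0 ≤ X := by positivity
  have b1 := iso_alg (d := d) hT1 hJ (fun t => ‖dp N b t‖ ^ 2) (fun t => by positivity) hσ
  have e1 : Real.log T / (2 * Real.pi) * (T * N2 N b) = X / (2 * Real.pi) := by rw [hX]; ring
  have e2 : (2 - H370.cMTinv - ε) * (Real.log T / (2 * Real.pi)) * (T * N2 N b) =
      (2 - H370.cMTinv - ε) * (X / (2 * Real.pi)) := by rw [hX]; ring
  have e3 : ε' * Real.log T * (T * N2 N b) = ε' * X := by rw [hX]; ring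
  rw [e2] at a1
  rw [e1, e3] at a3
  have a6 := (abs_le.1 a3).2
  rw [e1]
  set W := X / (2 * Real.pi) with hW
  have hW0 : 0 ≤ W := by positivity
  have hXW : X ≤ 8 * W := by
    rw [hW, mul_div_assoc', le_div_iff₀ (by positivity)]
    nlinarith
  have hθε : 10 * θ * X ≤ ε / 40 * X := by
    refine mul_le_mul_of_nonneg_right ?_ hX0
    have : θ ≤ ε / 400 := min_le_right _ _
    linarith
  have h3 : ε' * X ≤ ε / 5 * W := by
    rw [hε']; nlinarith
  have h4 : ε / 40 * X ≤ ε / 5 * W := by nlinarith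
  nlinarith

end

end Pool.Agent.U196.SN
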