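import Pool.Agent.U196.SN.Fin

/-!
# Project SN (helper196): large deviations of `Z'` at the zeros of one sign
-/

set_option autoImplicit false

namespace Pool.Agent.U196.SN

open Filter Topology MeasureTheory Complex
open Pool.Agent.Q97.UM

noncomputable section

open Classical in
/-- the count from the three moments -/
theorem three {S : Finset ℂ} {x : ℂ → ℝ} {L T c C k η : ℝ} (hx : ∀ s ∈ S, 0 < x s) (hL : 1 ≤ L) (hT : 0 ≤ T) (hη : 0 < η)
    (hk : 0 < k - η)
    (h0 : c * T * L ^ ((k + 1) ^ 2) ≤ ∑ s ∈ S, x s ^ (2 * k))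
    (h1 : ∑ s ∈ S, x s ^ (2 * (k + η)) ≤ C * T * L ^ ((k + η + 1) ^ 2))
    (h2 : ∑ s ∈ S, x s ^ (2 * (k - η)) ≤ C * T * L ^ ((k - η + 1) ^ 2))
    (hbig : 2 * C * L ^ (-(η ^ 2)) ≤ c / 2) :
    c / 2 * T * L ^ (1 - k ^ 2 - 2 * k * η) ≤ ((S.filter (fun s => L ^ (1 + k - η) ≤ x s)).card : ℝ) := by
  have hL0 : 0 < L := by linarith
  -- the three parts
  set S1 := S.filter (fun s => L ^ (1 + k - η) ≤ x s) with hS1
  have hpt : ∀ s ∈ S, x s ^ (2 * k) ≤ L ^ (-(2 * η * (1 + k + η))) * x s ^ (2 * (k + η)) +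
      L ^ (2 * η * (1 + k - η)) * x s ^ (2 * (k - η)) + (if L ^ (1 + k - η) ≤ x s then L ^ (2 * k * (1 + k + η)) else 0) := by
    intro s hs
    have hxs := hx s hs
    have n1 : 0 ≤ L ^ (-(2 * η * (1 + k + η))) * x s ^ (2 * (k + η)) := by positivity
    have n2 : 0 ≤ L ^ (2 * η * (1 + k - η)) * x s ^ (2 * (k - η)) := by positivity
    have n3 : 0 ≤ (if L ^ (1 + k - η) ≤ x s then L ^ (2 * k * (1 + k + η)) else 0) := by split_ifs <;> positivity
    rcases le_or_gt (L ^ (1 + k + η)) (x s) with h | h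
    · have : x s ^ (2 * k) ≤ L ^ (-(2 * η * (1 + k + η))) * x s ^ (2 * (k + η)) := by
        have e1 : x s ^ (2 * (k + η)) = x s ^ (2 * k) * x s ^ (2 * η) := by
          rw [← Real.rpow_add hxs]; congr 1; ring
        have e2 : L ^ (2 * η * (1 + k + η)) ≤ x s ^ (2 * η) := by
          calc L ^ (2 * η * (1 + k + η)) = (L ^ (1 + k + η)) ^ (2 * η) := by rw [← Real.rpow_mul hL0.le]; congr 1; ring
            _ ≤ _ := Real.rpow_le_rpow (by positivity) h (by positivity)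
        rw [e1, Real.rpow_neg hL0.le]
        have e3 : 0 < L ^ (2 * η * (1 + k + η)) := by positivity
        rw [← div_eq_inv_mul, le_div_iff₀ e3]
        exact mul_le_mul_of_nonneg_left e2 (by positivity)
      linarith
    · rcases lt_or_ge (x s) (L ^ (1 + k - η)) with h' | h'
      · have : x s ^ (2 * k) ≤ L ^ (2 * η * (1 + k - η)) * x s ^ (2 * (k - η)) := by
          have e1 : x s ^ (2 * k) = x s ^ (2 * η) * x s ^ (2 * (k - η)) := by
            rw [← Real.rpow_add hxs]; congr 1; ring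
          rw [e1]
          refine mul_le_mul_of_nonneg_right ?_ (by positivity)
          calc x s ^ (2 * η) ≤ (L ^ (1 + k - η)) ^ (2 * η) := Real.rpow_le_rpow hxs.le h'.le (by positivity)
            _ = _ := by rw [← Real.rpow_mul hL0.le]; congr 1; ring
        linarith
      · rw [if_pos h'] at n3 ⊢
        have : x s ^ (2 * k) ≤ L ^ (2 * k * (1 + k + η)) := by
          calc x s ^ (2 * k) ≤ (L ^ (1 + k + η)) ^ (2 * k) := Real.rpow_le_rpow hxs.le h.le (by linarith)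
            _ = _ := by rw [← Real.rpow_mul hL0.le]; congr 1; ring
        linarith
  have hsum := Finset.sum_le_sum hpt
  rw [Finset.sum_add_distrib, Finset.sum_add_distrib, ← Finset.mul_sum, ← Finset.mul_sum, ← Finset.sum_filter,
    Finset.sum_const, nsmul_eq_mul] at hsum
  have q1 : L ^ (-(2 * η * (1 + k + η))) * ∑ s ∈ S, x s ^ (2 * (k + η)) ≤ C * L ^ (-(η ^ 2)) * (T * L ^ ((k + 1) ^ 2)) := by
    refine (mul_le_mul_of_nonneg_left h1 (by positivity)).trans (le_of_eq ?_)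
    have : L ^ (-(2 * η * (1 + k + η))) * L ^ ((k + η + 1) ^ 2) = L ^ (-(η ^ 2)) * L ^ ((k + 1) ^ 2) := by
      rw [← Real.rpow_add hL0, ← Real.rpow_add hL0]; congr 1; ring
    calc L ^ (-(2 * η * (1 + k + η))) * (C * T * L ^ ((k + η + 1) ^ 2)) =
        C * T * (L ^ (-(2 * η * (1 + k + η))) * L ^ ((k + η + 1) ^ 2)) := by ring
      _ = _ := by rw [this]; ring
  have q2 : L ^ (2 * η * (1 + k - η)) * ∑ s ∈ S, x s ^ (2 * (k - η)) ≤ C * L ^ (-(η ^ 2)) * (T * L ^ ((k + 1) ^ 2)) := by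
    refine (mul_le_mul_of_nonneg_left h2 (by positivity)).trans (le_of_eq ?_)
    have : L ^ (2 * η * (1 + k - η)) * L ^ ((k - η + 1) ^ 2) = L ^ (-(η ^ 2)) * L ^ ((k + 1) ^ 2) := by
      rw [← Real.rpow_add hL0, ← Real.rpow_add hL0]; congr 1; ring
    calc L ^ (2 * η * (1 + k - η)) * (C * T * L ^ ((k - η + 1) ^ 2)) =
        C * T * (L ^ (2 * η * (1 + k - η)) * L ^ ((k - η + 1) ^ 2)) := by ring
      _ = _ := by rw [this]; ring
  have hTL : 0 ≤ T * L ^ ((k + 1) ^ 2) := by positivity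
  have q3 := mul_le_mul_of_nonneg_right hbig hTL
  have q4 : c / 2 * (T * L ^ ((k + 1) ^ 2)) ≤ (S1.card : ℝ) * L ^ (2 * k * (1 + k + η)) := by
    linarith
  have q5 : L ^ ((k + 1) ^ 2) = L ^ (1 - k ^ 2 - 2 * k * η) * L ^ (2 * k * (1 + k + η)) := by
    rw [← Real.rpow_add hL0]; congr 1; ring
  rw [q5] at q4
  have q6 : 0 < L ^ (2 * k * (1 + k + η)) := by positivity
  refine le_of_mul_le_mul_right ?_ q6
  linarith

open Classical in
/-- **large deviations from below, each sign** -/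
theorem ld_low {κ ε : ℝ} (h0 : 0 ≤ κ) (h1 : κ < 1) (hε : 0 < ε) : ∀ᶠ T : ℝ in atTop, ∀ σ : ℝ, σ = 1 ∨ σ = -1 →
    T * Real.log T ^ (1 - κ ^ 2 - ε) ≤
      (((CS σ T).filter (fun s => Real.log s.im ^ (1 + κ) ≤ ‖deriv riemannZeta s‖)).card : ℝ) := by
  obtain ⟨d, hd, hd1, hM, -⟩ := moments
  obtain ⟨c, hc, hM⟩ := hM 1 le_rfl
  -- parameters
  set η : ℝ := min ((1 - κ) / 4) (ε / 40) with hη
  have hη0 : 0 < η := by rw [hη, lt_min_iff]; constructor <;> linarith
  have hη1 : η ≤ (1 - κ) / 4 := min_le_left _ _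
  have hη2 : η ≤ ε / 40 := min_le_right _ _
  set k : ℝ := κ + 2 * η with hk
  have hk1 : k + η < 1 := by rw [hk]; linarith
  have hk0 : 0 < k - η := by rw [hk]; linarith
  obtain ⟨C₁, hC₁, hU1⟩ := J_up (lam := k + η) (by linarith) hk1
  obtain ⟨C₂, hC₂, hU2⟩ := J_up (lam := k - η) hk0 (by linarith)
  set C : ℝ := max C₁ C₂ with hC
  have hC0 : 0 ≤ C := hC₁.trans (le_max_left _ _)
  have hlim1 : ∀ᶠ L : ℝ in atTop, 2 * C * L ^ (-(η ^ 2)) ≤ c / 2 := by
    have h := (tendsto_rpow_neg_atTop (show 0 < η ^ 2 by positivity)).const_mul (2 * C)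
    rw [mul_zero] at h
    exact h.eventually (ge_mem_nhds (by positivity))
  have hlim2 : ∀ᶠ L : ℝ in atTop, 2 / c ≤ L ^ (ε / 2) := (tendsto_rpow_atTop (by positivity)).eventually_ge_atTop _
  have hlim3 : ∀ᶠ L : ℝ in atTop, (2 : ℝ) ^ (1 + κ) ≤ L ^ η := (tendsto_rpow_atTop hη0).eventually_ge_atTop _
  filter_upwards [hM, hU1, hU2, Real.tendsto_log_atTop.eventually hlim1, Real.tendsto_log_atTop.eventually hlim2,
    Real.tendsto_log_atTop.eventually hlim3, Real.tendsto_log_atTop.eventually_ge_atTop 1, eventually_ge_atTop 16]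
    with T m1 u1 u2 l1 l2 l3 hL hT σ hσ
  have hT0 : 0 < T := by linarith
  set L := Real.log T with hLd
  have hL0 : 0 < L := by linarith
  have hsub : ZS σ d T ⊆ (H370.Zf riemannZeta T (2 * T)).filter (fun s => s.re = 1 / 2) := fun s hs => ZI_sub (ZS_sub σ d T hs)
  have hpos : ∀ s ∈ ZS σ d T, 0 < ‖deriv riemannZeta s‖ := by
    intro s hs
    have := (mem_ZI_iff hT hd1).1 (ZS_sub σ d T hs)
    exact norm_pos_iff.2 this.2.2.2.2.1
  have key := three (S := ZS σ d T) (x := fun s => ‖deriv riemannZeta s‖) (L := L) (T := T) (c := c) (C := C) (k := k) (η := η)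
    hpos hL hT0.le hη0 hk0 (m1 k (by rw [abs_of_pos (by linarith)]; linarith) σ hσ)
    ((Finset.sum_le_sum_of_subset_of_nonneg hsub fun s _ _ => by positivity).trans (u1.trans (by
      have : C₁ ≤ C := le_max_left _ _
      gcongr)))
    ((Finset.sum_le_sum_of_subset_of_nonneg hsub fun s _ _ => by positivity).trans (u2.trans (by
      have : C₂ ≤ C := le_max_right _ _
      gcongr))) l1
  -- the exponent
  have e1 : T * L ^ (1 - κ ^ 2 - ε) ≤ c / 2 * T * L ^ (1 - k ^ 2 - 2 * k * η) := by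
    have e2 : L ^ (1 - κ ^ 2 - ε) * L ^ (ε / 2) ≤ L ^ (1 - k ^ 2 - 2 * k * η) := by
      rw [← Real.rpow_add hL0]
      refine Real.rpow_le_rpow_of_exponent_le hL ?_
      rw [hk]
      nlinarith
    have e3 : 0 ≤ L ^ (1 - κ ^ 2 - ε) := by positivity
    have e4 : L ^ (1 - κ ^ 2 - ε) ≤ c / 2 * (L ^ (1 - κ ^ 2 - ε) * L ^ (ε / 2)) := by
      have e5 : 1 ≤ c / 2 * L ^ (ε / 2) := by
        rw [div_le_iff₀ hc] at l2
        linarith
      calc L ^ (1 - κ ^ 2 - ε) = L ^ (1 - κ ^ 2 - ε) * 1 := (mul_one _).symm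
        _ ≤ L ^ (1 - κ ^ 2 - ε) * (c / 2 * L ^ (ε / 2)) := mul_le_mul_of_nonneg_left e5 e3
        _ = _ := by ring
    have e6 := mul_le_mul_of_nonneg_left (e4.trans (mul_le_mul_of_nonneg_left e2 (by positivity : 0 ≤ c / 2))) hT0.le
    linarith
  refine e1.trans (key.trans ?_)
  -- the sets
  norm_cast
  refine Finset.card_le_card fun s hs => ?_
  rw [Finset.mem_filter] at hs ⊢
  have hZI := (mem_ZI_iff hT hd1).1 (ZS_sub σ d T hs.1)
  refine ⟨?_, le_trans ?_ hs.2⟩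
  · unfold CS
    unfold ZS at hs
    rw [Finset.mem_filter] at hs ⊢
    exact ⟨ZI_sub hs.1.1, hs.1.2⟩
  · have f1 : Real.log s.im ≤ 2 * L := by
      have g1 := Real.log_le_log (by linarith [hZI.2.1]) hZI.2.2.1
      rw [Real.log_mul (by norm_num) hT0.ne'] at g1
      have := Real.log_two_lt_d9
      linarith
    have f0 : 0 ≤ Real.log s.im := Real.log_nonneg (by linarith [hZI.2.1])
    calc Real.log s.im ^ (1 + κ) ≤ (2 * L) ^ (1 + κ) := Real.rpow_le_rpow f0 f1 (by linarith)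
      _ = 2 ^ (1 + κ) * L ^ (1 + κ) := Real.mul_rpow (by norm_num) hL0.le
      _ ≤ L ^ η * L ^ (1 + κ) := mul_le_mul_of_nonneg_right l3 (by positivity)
      _ = L ^ (1 + k - η) := by
        rw [← Real.rpow_add hL0, hk]
        congr 1
        ring

open Classical in
/-- large deviations from above -/
theorem ld_up {κ : ℝ} (h0 : 0 < κ) (h1 : κ < 1) : ∃ C : ℝ, 0 ≤ C ∧ ∀ᶠ T : ℝ in atTop, ∀ σ : ℝ,
    (((CS σ T).filter (fun s => Real.log s.im ^ (1 + κ) ≤ ‖deriv riemannZeta s‖)).card : ℝ) ≤ C * T * Real.log T ^ (1 - κ ^ 2) := by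
  obtain ⟨C, hC, hU⟩ := J_up h0 h1
  refine ⟨C, hC, ?_⟩
  filter_upwards [hU, Real.tendsto_log_atTop.eventually_ge_atTop 1, eventually_ge_atTop 16] with T u hL hT σ
  have hT0 : 0 < T := by linarith
  set L := Real.log T with hLd
  have hL0 : 0 < L := by linarith
  set S := (CS σ T).filter (fun s => Real.log s.im ^ (1 + κ) ≤ ‖deriv riemannZeta s‖) with hS
  have a1 : (S.card : ℝ) * L ^ (2 * κ * (1 + κ)) ≤ C * T * L ^ ((κ + 1) ^ 2) := by
    refine le_trans ?_ u
    rw [← nsmul_eq_mul]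
    refine le_trans (Finset.card_nsmul_le_sum S (fun s => ‖deriv riemannZeta s‖ ^ (2 * κ)) _ fun s hs => ?_)
      (Finset.sum_le_sum_of_subset_of_nonneg ?_ fun s _ _ => by positivity)
    · rw [hS, Finset.mem_filter] at hs
      have hs1 : s ∈ CZ T := Finset.mem_of_mem_filter s hs.1
      have hs2 := (mem_CZ (by linarith)).1 hs1
      have g1 : L ≤ Real.log s.im := Real.log_le_log hT0 hs2.2.1.le
      calc L ^ (2 * κ * (1 + κ)) = (L ^ (1 + κ)) ^ (2 * κ) := by rw [← Real.rpow_mul hL0.le]; congr 1; ring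
        _ ≤ ‖deriv riemannZeta s‖ ^ (2 * κ) := Real.rpow_le_rpow (by positivity)
            ((Real.rpow_le_rpow hL0.le g1 (by linarith)).trans hs.2) (by linarith)
    · intro s hs
      rw [hS, Finset.mem_filter] at hs
      exact Finset.mem_of_mem_filter s hs.1
  have a2 : L ^ ((κ + 1) ^ 2) = L ^ (1 - κ ^ 2) * L ^ (2 * κ * (1 + κ)) := by
    rw [← Real.rpow_add hL0]; congr 1; ring
  rw [a2] at a1
  refine le_of_mul_le_mul_right ?_ (by positivity : 0 < L ^ (2 * κ * (1 + κ)))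
  linarith

end

end Pool.Agent.U196.SN
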