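import Pool.Agent.U196.SN.TV
import Pool.Agent.U196.UM.Quant

/-!
# Project SN (helper196): both signs of `Z'` carry the same share of every weight
-/

set_option autoImplicit false

namespace Pool.Agent.U196.SN

open Filter Topology MeasureTheory Complex
open Pool.Agent.Q97.UM
open Pool.Agent.R304.SG (Z RZ RZ_finite sg Z_zero_iff)

noncomputable section

open Classical in
/-- the distinct zeros on the critical line with ordinate in `(T, 2T]` -/
def CZ (T : ℝ) : Finset ℂ := (H370.Zf riemannZeta T (2 * T)).filter (fun s => s.re = 1 / 2)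

/-- the derivative of Hardy's function at the ordinate, a real number -/
def dZ (s : ℂ) : ℝ := (deriv Z s.im).re

lemma half_im (u : ℝ) : (1 / 2 + I * u : ℂ).im = u := by simp

lemma half_re (u : ℝ) : (1 / 2 + I * u : ℂ).re = 1 / 2 := by simp

lemma half_eq {s : ℂ} (h : s.re = 1 / 2) : (1 / 2 + I * s.im : ℂ) = s := by
  apply Complex.ext
  · simp [h]
  · simp

lemma mem_CZ {T : ℝ} (hT : 1 ≤ T) {s : ℂ} : s ∈ CZ T ↔ s.re = 1 / 2 ∧ T < s.im ∧ s.im ≤ 2 * T ∧ riemannZeta s = 0 := by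
  unfold CZ
  rw [Finset.mem_filter, H370.mem_Zf H370.good_zeta hT]
  constructor
  · rintro ⟨⟨h1, h2, h3, h4, h5⟩, h6⟩
    exact ⟨h6, h3, h4, h5⟩
  · rintro ⟨h6, h3, h4, h5⟩
    exact ⟨⟨by rw [h6]; norm_num, by rw [h6]; norm_num, h3, h4, h5⟩, h6⟩

lemma mem_CZ' {T : ℝ} (hT : 1 ≤ T) {u : ℝ} (h0 : 0 ≤ T) : u ∈ (RZ_finite T (2 * T) h0).toFinset ↔ (1 / 2 + I * u : ℂ) ∈ CZ T := by
  rw [Set.Finite.mem_toFinset, mem_CZ hT, half_im, half_re]
  constructor
  · rintro ⟨h1, h2, h3⟩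
    exact ⟨rfl, h1, h2, (Z_zero_iff u).mp h3⟩
  · rintro ⟨-, h1, h2, h3⟩
    exact ⟨h1, h2, (Z_zero_iff u).mpr h3⟩

lemma sum_CZ {T : ℝ} (hT : 1 ≤ T) (h0 : 0 ≤ T) (g : ℝ → ℝ) :
    ∑ u ∈ (RZ_finite T (2 * T) h0).toFinset, g u = ∑ s ∈ CZ T, g s.im := by
  refine Finset.sum_nbij' (fun u : ℝ => (1 / 2 + I * u : ℂ)) (fun s => s.im) ?_ ?_ ?_ ?_ ?_
  · intro u hu
    exact (mem_CZ' hT h0).1 hu
  · intro s hs
    rw [mem_CZ' hT h0, half_eq ((mem_CZ hT).1 hs).1]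
    exact hs
  · intro u _
    exact half_im u
  · intro s hs
    exact half_eq ((mem_CZ hT).1 hs).1
  · intro u _
    rw [half_im]

/-- the jumps at the critical zeros -/
theorem jumpsC {T : ℝ} (hT : 1 ≤ T) : ∃ J : ℂ → ℝ,
    (∀ s ∈ CZ T, |J s| ≤ 1 ∧ (0 < dZ s → J s = 1) ∧ (dZ s < 0 → J s = -1) ∧
      (dZ s = 0 → 2 ≤ mz s ∧ (mz s < 3 → J s = 0))) ∧
    ∀ (N : ℕ) (b : ℕ → ℂ), |∑ s ∈ CZ T, J s * ‖dp N b s.im‖ ^ 2| ≤ |‖dp N b (2 * T)‖ ^ 2| + ∫ t in T..(2 * T), |dv N b t| := by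
  have h0 : 0 ≤ T := by linarith
  obtain ⟨J, hJ, hP⟩ := jumps h0 (show T < 2 * T by linarith)
  refine ⟨fun s => (J s.im : ℝ), fun s hs => ?_, fun N b => ?_⟩
  · have hs' := (mem_CZ hT).1 hs
    have hu : s.im ∈ (RZ_finite T (2 * T) h0).toFinset := by
      rw [mem_CZ' hT h0, half_eq hs'.1]; exact hs
    obtain ⟨j1, j2, j3⟩ := hJ s.im hu
    have hne : ∀ h : dZ s ≠ 0, deriv Z s.im ≠ 0 := fun h h' => h (by unfold dZ; rw [h']; rfl)
    refine ⟨by
      show |((J s.im : ℤ) : ℝ)| ≤ 1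
      exact_mod_cast j1, fun h => ?_, fun h => ?_, fun h => ?_⟩
    · have := (j2 (hne h.ne')).1
      show (J s.im : ℝ) = 1
      rw [this]
      unfold sg
      rw [if_pos (show 0 < (deriv Z s.im).re from h)]
      norm_num
    · have := (j2 (hne h.ne)).1
      show (J s.im : ℝ) = -1
      rw [this]
      unfold sg
      rw [if_neg (show ¬ 0 < (deriv Z s.im).re from not_lt.2 h.le)]
      norm_num
    · have hd0 : deriv Z s.im = 0 := by
        by_contra hc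
        exact (j2 hc).2 h
      have hz : riemannZeta (1 / 2 + I * (s.im : ℂ)) = 0 := by rw [half_eq hs'.1]; exact hs'.2.2.2
      have hge : 1 ≤ mz s := H370.Loc.mult_pos' H370.good_zeta (by linarith [hs'.2.1]) hs'.2.2.2
      have hne1 : mz s ≠ 1 := by
        intro h1
        refine Pool.Agent.Results.MP_6bc78b_nt.SimpleZerosOfZ.simple_of_order hz ?_ hd0
        rw [half_eq hs'.1]; exact h1
      refine ⟨by omega, fun h3 => ?_⟩
      have : analyticOrderNatAt riemannZeta (1 / 2 + I * (s.im : ℂ)) < 3 := by rw [half_eq hs'.1]; exact h3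
      show (J s.im : ℝ) = 0
      rw [j3 hd0 this]
      norm_num
  · have h := parts (F := (RZ_finite T (2 * T) h0).toFinset) (J := J) (T₁ := T) (T₂ := 2 * T)
      (fun u hu => ⟨((Set.Finite.mem_toFinset _).1 hu).1, ((Set.Finite.mem_toFinset _).1 hu).2.1⟩) hP (by linarith)
      (fun t => hasDeriv N b t) (dv_cont N b)
    rw [sum_CZ hT h0 (fun u => (J u : ℝ) * ‖dp N b u‖ ^ 2)] at h
    exact h

open Classical in
/-- reflection at the critical line -/
lemma refl_eq {T : ℝ} (hT : 1 ≤ T) (f : ℝ → ℝ) :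
    ∑ s ∈ (H370.Zf riemannZeta T (2 * T)).filter (fun s => s.re ≤ 1 / 2), f s.im =
      ∑ s ∈ (H370.Zf riemannZeta T (2 * T)).filter (fun s => 1 / 2 ≤ s.re), f s.im := by
  rw [Finset.sum_filter, Finset.sum_filter,
    ← H370.sum_refl H370.good_zeta hT (fun s => if 1 / 2 ≤ s.re then f s.im else 0)]
  refine Finset.sum_congr rfl fun s _ => ?_
  have h1 : (1 - (starRingEnd ℂ) s).re = 1 - s.re := by simp
  have h2 : (1 - (starRingEnd ℂ) s).im = s.im := by simp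
  rw [h1, h2]
  by_cases h : s.re ≤ 1 / 2
  · rw [if_pos h, if_pos (by linarith)]
  · rw [if_neg h, if_neg (by linarith)]

open Classical in
/-- `2D - M ≤ ∑ (2 - m) f` over the critical zeros -/
lemma two_distinct {T : ℝ} (hT : 1 ≤ T) (f : ℝ → ℝ) (hf : ∀ t, 0 ≤ f t) :
    2 * ∑ s ∈ (H370.Zf riemannZeta T (2 * T)).filter (fun s => s.re ≤ 1 / 2), f s.im -
      ∑ s ∈ H370.Zf riemannZeta T (2 * T), (mz s : ℝ) * f s.im ≤ ∑ s ∈ CZ T, (2 - (mz s : ℝ)) * f s.im := by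
  set Y := H370.Zf riemannZeta T (2 * T) with hY
  have h1 : 2 * ∑ s ∈ Y.filter (fun s => s.re ≤ 1 / 2), f s.im = ∑ s ∈ Y, f s.im + ∑ s ∈ CZ T, f s.im := by
    have e1 := refl_eq hT f
    have e2 : ∑ s ∈ Y.filter (fun s => s.re ≤ 1 / 2), f s.im + ∑ s ∈ Y.filter (fun s => 1 / 2 ≤ s.re), f s.im =
        ∑ s ∈ Y, f s.im + ∑ s ∈ CZ T, f s.im := by
      unfold CZ
      rw [← hY, Finset.sum_filter, Finset.sum_filter, Finset.sum_filter, ← Finset.sum_add_distrib, ← Finset.sum_add_distrib]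
      refine Finset.sum_congr rfl fun s _ => ?_
      rcases lt_trichotomy s.re (1 / 2) with h | h | h
      · rw [if_pos h.le, if_neg (not_le.2 h), if_neg h.ne]
      · rw [if_pos h.le, if_pos h.ge, if_pos h]
      · rw [if_neg (not_le.2 h), if_pos h.le, if_neg h.ne']
        ring
    rw [← e2, ← e1]
    ring
  rw [h1]
  have h2 : ∑ s ∈ Y, f s.im - ∑ s ∈ Y, (mz s : ℝ) * f s.im ≤ ∑ s ∈ CZ T, (1 - (mz s : ℝ)) * f s.im := by
    rw [← Finset.sum_sub_distrib]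
    unfold CZ
    rw [← hY, Finset.sum_filter]
    refine Finset.sum_le_sum fun s hs => ?_
    have hm : (1 : ℝ) ≤ mz s := by
      have := (H370.mem_Zf H370.good_zeta hT).1 (hY ▸ hs)
      have h3 : 1 ≤ mz s := H370.Loc.mult_pos' H370.good_zeta (by linarith [this.2.2.1]) this.2.2.2.2
      exact_mod_cast h3
    split_ifs
    · linarith [(by ring : (1 - (mz s : ℝ)) * f s.im = f s.im - mz s * f s.im)]
    · nlinarith [hf s.im]
  have h3 : ∑ s ∈ CZ T, (2 - (mz s : ℝ)) * f s.im = ∑ s ∈ CZ T, (1 - (mz s : ℝ)) * f s.im + ∑ s ∈ CZ T, f s.im := by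
    rw [← Finset.sum_add_distrib]
    exact Finset.sum_congr rfl fun s _ => by ring
  rw [h3]
  linarith

open Classical in
/-- the pointwise inequality behind the two shares -/
theorem share_alg {T : ℝ} (hT : 1 ≤ T) {J : ℂ → ℝ}
    (hJ : ∀ s ∈ CZ T, |J s| ≤ 1 ∧ (0 < dZ s → J s = 1) ∧ (dZ s < 0 → J s = -1) ∧
      (dZ s = 0 → 2 ≤ mz s ∧ (mz s < 3 → J s = 0))) (f : ℝ → ℝ) (hf : ∀ t, 0 ≤ f t) :
    ∑ s ∈ CZ T, (2 - (mz s : ℝ)) * f s.im - |∑ s ∈ CZ T, J s * f s.im| ≤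
      2 * ∑ s ∈ (CZ T).filter (fun s => 0 < dZ s), f s.im ∧
    ∑ s ∈ CZ T, (2 - (mz s : ℝ)) * f s.im - |∑ s ∈ CZ T, J s * f s.im| ≤
      2 * ∑ s ∈ (CZ T).filter (fun s => dZ s < 0), f s.im := by
  have hm : ∀ s ∈ CZ T, (1 : ℝ) ≤ mz s := by
    intro s hs
    have hs' := (mem_CZ hT).1 hs
    have h3 : 1 ≤ mz s := H370.Loc.mult_pos' H370.good_zeta (by linarith [hs'.2.1]) hs'.2.2.2
    exact_mod_cast h3
  have hJ0 : ∀ s ∈ CZ T, dZ s = 0 → |J s| ≤ (mz s : ℝ) - 2 := by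
    intro s hs h0
    obtain ⟨j1, -, -, j4⟩ := hJ s hs
    obtain ⟨j5, j6⟩ := j4 h0
    rcases lt_or_ge (mz s) 3 with h | h
    · rw [j6 h, abs_zero]
      have : (2 : ℝ) ≤ mz s := by exact_mod_cast j5
      linarith
    · have : (3 : ℝ) ≤ mz s := by exact_mod_cast h
      linarith
  constructor
  · have h1 : ∑ s ∈ CZ T, (2 - (mz s : ℝ)) * f s.im + ∑ s ∈ CZ T, J s * f s.im ≤
        2 * ∑ s ∈ (CZ T).filter (fun s => 0 < dZ s), f s.im := by
      rw [Finset.mul_sum, Finset.sum_filter, ← Finset.sum_add_distrib]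
      refine Finset.sum_le_sum fun s hs => ?_
      obtain ⟨j1, j2, j3, -⟩ := hJ s hs
      have hf0 := hf s.im
      have hm1 := hm s hs
      rcases lt_trichotomy (dZ s) 0 with h | h | h
      · rw [if_neg (by linarith), j3 h]
        nlinarith
      · rw [if_neg (by linarith)]
        have := (abs_le.1 (hJ0 s hs h)).2
        nlinarith
      · rw [if_pos h, j2 h]
        nlinarith
    have h2 := neg_abs_le (∑ s ∈ CZ T, J s * f s.im)
    linarith
  · have h1 : ∑ s ∈ CZ T, (2 - (mz s : ℝ)) * f s.im - ∑ s ∈ CZ T, J s * f s.im ≤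
        2 * ∑ s ∈ (CZ T).filter (fun s => dZ s < 0), f s.im := by
      rw [Finset.mul_sum, Finset.sum_filter, ← Finset.sum_sub_distrib]
      refine Finset.sum_le_sum fun s hs => ?_
      obtain ⟨j1, j2, j3, -⟩ := hJ s hs
      have hf0 := hf s.im
      have hm1 := hm s hs
      rcases lt_trichotomy (dZ s) 0 with h | h | h
      · rw [if_pos h, j3 h]
        nlinarith
      · rw [if_neg (by linarith)]
        have := (abs_le.1 (hJ0 s hs h)).1
        nlinarith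
      · rw [if_neg (by linarith), j2 h]
        nlinarith
    have h2 := le_abs_self (∑ s ∈ CZ T, J s * f s.im)
    linarith

open Classical in
/-- **both signs**: the simple zeros with `Z' > 0`, and those with `Z' < 0` -/
theorem both {ε : ℝ} (hε : 0 < ε) : ∃ θ : ℝ, 0 < θ ∧ θ ≤ 1 / 40 ∧ ∀ᶠ T : ℝ in atTop, ∀ N : ℕ, (N : ℝ) ≤ T ^ θ → ∀ b : ℕ → ℂ,
    (2 - H370.cMTinv - ε) / 2 * (Real.log T / (2 * Real.pi) * (T * N2 N b)) ≤ ∑ s ∈ (CZ T).filter (fun s => 0 < dZ s), ‖dp N b s.im‖ ^ 2 ∧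
    (2 - H370.cMTinv - ε) / 2 * (Real.log T / (2 * Real.pi) * (T * N2 N b)) ≤ ∑ s ∈ (CZ T).filter (fun s => dZ s < 0), ‖dp N b s.im‖ ^ 2 := by
  have hpi := Real.pi_pos
  have hpi4 := Real.pi_lt_four
  set ε' : ℝ := ε / 40 with hε'
  have hε'0 : 0 < ε' := by positivity
  obtain ⟨θ₁, hθ₁, hθ₁', hS⟩ := b_SAMP ε' hε'0
  set θ : ℝ := min θ₁ (ε / 400) with hθ
  have hθ0 : 0 < θ := by positivity
  have hθ40 : θ ≤ 1 / 40 := (min_le_left _ _).trans hθ₁'
  refine ⟨θ, hθ0, hθ40, ?_⟩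
  filter_upwards [hS, tv hθ0 (by linarith), eventually_ge_atTop 16] with T h1 h2 hT N hN b
  have hT1 : 1 ≤ T := by linarith
  have hL : 0 < Real.log T := Real.log_pos (by linarith)
  obtain ⟨-, a2, a3⟩ := h1 N (hN.trans (Real.rpow_le_rpow_of_exponent_le hT1 (min_le_left _ _))) b
  have a4 := h2 N hN b
  obtain ⟨J, hJ, hJs⟩ := jumpsC hT1
  have a5 := (hJs N b).trans a4
  have hn : 0 ≤ N2 N b := Pool.Agent.Q98.UM.N2_nonneg _ _
  set X := Real.log T * (T * N2 N b) with hX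
  have hX0 : 0 ≤ X := by positivity
  obtain ⟨b1, b2⟩ := share_alg hT1 hJ (fun t => ‖dp N b t‖ ^ 2) (fun t => by positivity)
  have b3 := two_distinct hT1 (fun t => ‖dp N b t‖ ^ 2) (fun t => by positivity)
  have e1 : Real.log T / (2 * Real.pi) * (T * N2 N b) = X / (2 * Real.pi) := by rw [hX]; ring
  have e2 : ((3 - H370.cMTinv) / 2 - ε') * (Real.log T / (2 * Real.pi)) * (T * N2 N b) =
      ((3 - H370.cMTinv) / 2 - ε') * (X / (2 * Real.pi)) := by rw [hX]; ring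
  have e3 : ε' * Real.log T * (T * N2 N b) = ε' * X := by rw [hX]; ring
  rw [e2] at a2
  rw [e1, e3] at a3
  have a6 := (abs_le.1 a3).2
  rw [e1]
  set W := X / (2 * Real.pi) with hW
  have hW0 : 0 ≤ W := by positivity
  have hXW : X ≤ 8 * W := by
    rw [hW, mul_div_assoc', le_div_iff₀ (by positivity)]
    nlinarith
  have hθε : 10 * θ * X ≤ ε / 40 * X := by
    refine mul_le_mul_of_nonneg_right ?_ hX0
    have : θ ≤ ε / 400 := min_le_right _ _
    linarith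
  have hfin : (2 - H370.cMTinv - ε) * W ≤ 2 * (((3 - H370.cMTinv) / 2 - ε') * W) - (W + ε' * X) - ε / 40 * X := by
    have h3 : ε' * X ≤ ε / 5 * W := by
      rw [hε']; nlinarith
    have h4 : ε / 40 * X ≤ ε / 5 * W := by nlinarith
    rw [hε'] at h3 ⊢
    nlinarith
  constructor
  · linarith
  · linarith

end

end Pool.Agent.U196.SN
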