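import Pool.Agent.U196.SN.Bal
import Pool.Agent.Q61.UM.SAMPb
import Pool.Agent.Q97.UM.Base8

/-!
# Project SN (helper196): the variation of `|B|²`
-/

set_option autoImplicit false

namespace Pool.Agent.U196.SN

open Filter Topology MeasureTheory Complex
open Pool.Agent.Q97.UM
open Pool.Agent.Q61.UM (bd dp_deriv N2_bd)

noncomputable section

/-- the derivative of `|B|²` -/
def dv (N : ℕ) (b : ℕ → ℂ) (t : ℝ) : ℝ := 2 * inner ℝ (dp N b t) (dp N (bd b) t)

lemma dp_cont (N : ℕ) (b : ℕ → ℂ) : Continuous (dp N b) := (Pool.Agent.Q84.UM.t_DPM.2.2 N b 0).2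

lemma hasDeriv (N : ℕ) (b : ℕ → ℂ) (t : ℝ) : HasDerivAt (fun t => ‖dp N b t‖ ^ 2) (dv N b t) t :=
  (dp_deriv N b t).norm_sq

lemma dv_cont (N : ℕ) (b : ℕ → ℂ) : Continuous (dv N b) :=
  ((dp_cont N b).inner (dp_cont N (bd b))).const_mul 2

lemma dv_le (N : ℕ) (b : ℕ → ℂ) {lam : ℝ} (hl : 0 < lam) (t : ℝ) :
    |dv N b t| ≤ lam * ‖dp N b t‖ ^ 2 + lam⁻¹ * ‖dp N (bd b) t‖ ^ 2 := by
  unfold dv
  rw [abs_mul, abs_of_pos (by norm_num : (0 : ℝ) < 2)]
  have h1 := abs_real_inner_le_norm (dp N b t) (dp N (bd b) t)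
  have h2 : 2 * (‖dp N b t‖ * ‖dp N (bd b) t‖) ≤ lam * ‖dp N b t‖ ^ 2 + lam⁻¹ * ‖dp N (bd b) t‖ ^ 2 := by
    have h3 : 0 ≤ lam⁻¹ * (lam * ‖dp N b t‖ - ‖dp N (bd b) t‖) ^ 2 := by positivity
    have h4 : lam⁻¹ * (lam * ‖dp N b t‖ - ‖dp N (bd b) t‖) ^ 2 = lam * ‖dp N b t‖ ^ 2 + lam⁻¹ * ‖dp N (bd b) t‖ ^ 2 -
        2 * (‖dp N b t‖ * ‖dp N (bd b) t‖) := by
      field_simp
      ring
    linarith
  linarith

/-- the variation of `|B|²` and its value at the end -/
theorem tv {θ : ℝ} (hθ : 0 < θ) (hθ1 : θ ≤ 1 / 4) : ∀ᶠ T : ℝ in atTop, ∀ N : ℕ, (N : ℝ) ≤ T ^ θ → ∀ b : ℕ → ℂ,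
    |‖dp N b (2 * T)‖ ^ 2| + ∫ t in T..(2 * T), |dv N b t| ≤ 10 * θ * (Real.log T * (T * N2 N b)) := by
  filter_upwards [eventually_ge_atTop 16, Real.tendsto_log_atTop.eventually_ge_atTop (1 / θ)] with T hT hL N hN b
  have hT0 : 0 < T := by linarith
  have hT1 : 1 ≤ T := by linarith
  set L := Real.log T with hLd
  have hθL : 1 ≤ θ * L := by
    rw [div_le_iff₀ hθ] at hL
    linarith
  have hL0 : 0 < L := by
    rcases le_or_gt L 0 with h | h
    · nlinarith
    · exact h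
  have hN4 : (N : ℝ) ≤ T ^ (1 / 4 : ℝ) := hN.trans (Real.rpow_le_rpow_of_exponent_le hT1 hθ1)
  have hn : 0 ≤ N2 N b := Pool.Agent.Q98.UM.N2_nonneg _ _
  have hlog0 : 0 ≤ Real.log N := Real.log_natCast_nonneg N
  have hlog : Real.log N ≤ θ * L := by
    rcases Nat.eq_zero_or_pos N with h | h
    · rw [h]
      simp only [Nat.cast_zero, Real.log_zero]
      positivity
    · have h1 : (0 : ℝ) < N := by exact_mod_cast h
      have h2 := Real.log_le_log h1 hN
      rw [Real.log_rpow hT0] at h2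
      exact h2
  have m1 := (Pool.Agent.Q84.UM.t_MVL T hT N hN4 b).2
  have m2 := (Pool.Agent.Q84.UM.t_MVL T hT N hN4 (bd b)).2
  have m3 := N2_bd N b
  have hlam : 0 < θ * L := by linarith
  have hTV : ∫ t in T..(2 * T), |dv N b t| ≤ 4 * (θ * L) * (T * N2 N b) := by
    have e1 : ∫ t in T..(2 * T), |dv N b t| ≤ ∫ t in T..(2 * T), ((θ * L) * ‖dp N b t‖ ^ 2 + (θ * L)⁻¹ * ‖dp N (bd b) t‖ ^ 2) := by
      refine intervalIntegral.integral_mono_on (by linarith) ((dv_cont N b).abs.intervalIntegrable _ _) ?_ fun t _ => dv_le N b hlam t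
      refine Continuous.intervalIntegrable ?_ _ _
      exact (((dp_cont N b).norm.pow 2).const_mul _).add (((dp_cont N (bd b)).norm.pow 2).const_mul _)
    rw [intervalIntegral.integral_add, intervalIntegral.integral_const_mul, intervalIntegral.integral_const_mul] at e1
    · have e2 : (θ * L)⁻¹ * ∫ t in T..(2 * T), ‖dp N (bd b) t‖ ^ 2 ≤ (θ * L)⁻¹ * (2 * T * ((θ * L) ^ 2 * N2 N b)) := by
        refine mul_le_mul_of_nonneg_left (m2.trans ?_) (by positivity)
        refine mul_le_mul_of_nonneg_left (m3.trans ?_) (by positivity)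
        refine mul_le_mul_of_nonneg_right ?_ hn
        exact pow_le_pow_left₀ hlog0 hlog 2
      have e3 : (θ * L) * ∫ t in T..(2 * T), ‖dp N b t‖ ^ 2 ≤ (θ * L) * (2 * T * N2 N b) :=
        mul_le_mul_of_nonneg_left m1 hlam.le
      have e4 : (θ * L)⁻¹ * (2 * T * ((θ * L) ^ 2 * N2 N b)) = (θ * L) * (2 * T * N2 N b) := by
        field_simp
      rw [e4] at e2
      linarith
    · exact (((dp_cont N b).norm.pow 2).const_mul _).intervalIntegrable _ _
    · exact (((dp_cont N (bd b)).norm.pow 2).const_mul _).intervalIntegrable _ _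
  set V := ∫ t in T..(2 * T), |dv N b t| with hV
  have hend : ‖dp N b (2 * T)‖ ^ 2 ≤ 2 * N2 N b + V := by
    have h1 : ∀ t ∈ Set.Icc T (2 * T), ‖dp N b (2 * T)‖ ^ 2 ≤ ‖dp N b t‖ ^ 2 + V := by
      intro t ht
      have e1 : ∫ x in t..(2 * T), dv N b x = ‖dp N b (2 * T)‖ ^ 2 - ‖dp N b t‖ ^ 2 :=
        intervalIntegral.integral_eq_sub_of_hasDerivAt (fun t _ => hasDeriv N b t) ((dv_cont N b).intervalIntegrable _ _)
      have e2 : ∫ x in t..(2 * T), dv N b x ≤ ∫ x in t..(2 * T), |dv N b x| :=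
        intervalIntegral.integral_mono_on ht.2 ((dv_cont N b).intervalIntegrable _ _)
          ((dv_cont N b).abs.intervalIntegrable _ _) fun x _ => le_abs_self _
      have e3 : ∫ x in t..(2 * T), |dv N b x| ≤ V := by
        rw [hV, ← intervalIntegral.integral_add_adjacent_intervals (a := T) (b := t) (c := 2 * T)
          ((dv_cont N b).abs.intervalIntegrable _ _) ((dv_cont N b).abs.intervalIntegrable _ _)]
        have : 0 ≤ ∫ x in T..t, |dv N b x| := intervalIntegral.integral_nonneg ht.1 fun x _ => abs_nonneg _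
        linarith
      linarith
    have h2 : ∫ t in T..(2 * T), ‖dp N b (2 * T)‖ ^ 2 ≤ ∫ t in T..(2 * T), (‖dp N b t‖ ^ 2 + V) := by
      refine intervalIntegral.integral_mono_on (by linarith) (by simp) ?_ h1
      exact (((dp_cont N b).norm.pow 2).add continuous_const).intervalIntegrable _ _
    have e6 : ∫ t in T..(2 * T), (‖dp N b t‖ ^ 2 + V) = (∫ t in T..(2 * T), ‖dp N b t‖ ^ 2) + (2 * T - T) • V := by
      rw [intervalIntegral.integral_add (by exact ((dp_cont N b).norm.pow 2).intervalIntegrable _ _)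
        (continuous_const.intervalIntegrable _ _), intervalIntegral.integral_const]
    rw [intervalIntegral.integral_const, e6] at h2
    have e5 : 2 * T - T = T := by ring
    rw [e5, smul_eq_mul, smul_eq_mul] at h2
    have h3 : T * ‖dp N b (2 * T)‖ ^ 2 ≤ T * (2 * N2 N b + V) := by linarith
    exact le_of_mul_le_mul_left h3 hT0
  rw [abs_of_nonneg (by positivity : (0:ℝ) ≤ ‖dp N b (2 * T)‖ ^ 2)]
  have h7 : N2 N b ≤ (θ * L) * (T * N2 N b) := by
    have : 1 ≤ (θ * L) * T := by nlinarith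
    calc N2 N b = 1 * N2 N b := (one_mul _).symm
      _ ≤ ((θ * L) * T) * N2 N b := mul_le_mul_of_nonneg_right this hn
      _ = _ := by ring
  have h8 : 10 * θ * (L * (T * N2 N b)) = 10 * ((θ * L) * (T * N2 N b)) := by ring
  rw [h8]
  linarith

end

end Pool.Agent.U196.SN
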